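import Mathlib

section

/-! # Stable commutator length in `F_2 = <a,b>`: definitions and the skeleton of the proof

`a = FreeGroup.of 0`, `b = FreeGroup.of 1`, `c = b a b⁻¹`. -/

set_option autoImplicit false

namespace Pool.Agent.SC

open Multiset

/-! ## Products of `k` commutators -/

/-- `g` is a product of `k` commutators -/
def PC {G : Type*} [Group G] (k : ℕ) (g : G) : Prop :=
  ∃ f : Fin k → G × G,
    (List.ofFn (fun i => (f i).1 * (f i).2 * (f i).1⁻¹ * (f i).2⁻¹)).prod = g

section PC
variable {G : Type*} [Group G]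

theorem PC_zero : PC 0 (1 : G) := ⟨fun i => i.elim0, by simp⟩

theorem PC_succ {k : ℕ} {g : G} (x y : G) (h : PC k g) : PC (k + 1) (x * y * x⁻¹ * y⁻¹ * g) := by
  obtain ⟨f, hf⟩ := h
  refine ⟨Fin.cons (x, y) f, ?_⟩
  rw [List.ofFn_succ, List.prod_cons]
  simp only [Fin.cons_zero, Fin.cons_succ]
  rw [hf]

theorem PC_succ_iff {k : ℕ} {g : G} :
    PC (k + 1) g ↔ ∃ x y h : G, PC k h ∧ g = x * y * x⁻¹ * y⁻¹ * h := by
  constructor
  · rintro ⟨f, hf⟩
    refine ⟨(f 0).1, (f 0).2, (List.ofFn (fun i : Fin k => (f i.succ).1 * (f i.succ).2 *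
      (f i.succ).1⁻¹ * (f i.succ).2⁻¹)).prod, ⟨fun i => f i.succ, rfl⟩, ?_⟩
    rw [← hf, List.ofFn_succ, List.prod_cons]
  · rintro ⟨x, y, h, hh, rfl⟩
    exact PC_succ x y hh

theorem PC_zero_iff {g : G} : PC 0 g ↔ g = 1 := by
  constructor
  · rintro ⟨f, hf⟩
    rw [← hf]; simp
  · rintro rfl; exact PC_zero

/-- multiplicativity -/
theorem PC_mul {k l : ℕ} {g h : G} (hg : PC k g) (hh : PC l h) : PC (k + l) (g * h) := by
  induction k generalizing g with
  | zero =>
    rw [PC_zero_iff] at hg; subst hg; simpa using hh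
  | succ k ih =>
    obtain ⟨x, y, g', hg', rfl⟩ := PC_succ_iff.1 hg
    have := PC_succ x y (ih hg')
    have e : k + 1 + l = k + l + 1 := by omega
    rw [e, mul_assoc (x * y * x⁻¹ * y⁻¹) g' h]
    exact this

theorem PC_comm (x y : G) : PC 1 (x * y * x⁻¹ * y⁻¹) := by
  simpa using PC_succ x y (PC_zero (G := G))

/-- conjugation invariance -/
theorem PC_conj {k : ℕ} {g : G} (u : G) (hg : PC k g) : PC k (u * g * u⁻¹) := by
  induction k generalizing g with
  | zero =>
    rw [PC_zero_iff] at hg; subst hg; simpa using (PC_zero (G := G))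
  | succ k ih =>
    obtain ⟨x, y, g', hg', rfl⟩ := PC_succ_iff.1 hg
    have := PC_succ (u * x * u⁻¹) (u * y * u⁻¹) (ih hg')
    have e : u * (x * y * x⁻¹ * y⁻¹ * g') * u⁻¹ =
      (u * x * u⁻¹) * (u * y * u⁻¹) * (u * x * u⁻¹)⁻¹ * (u * y * u⁻¹)⁻¹ * (u * g' * u⁻¹) := by
      group
    rw [e]; exact this

theorem PC_mono {k l : ℕ} {g : G} (hg : PC k g) (hkl : k ≤ l) : PC l g := by
  obtain ⟨d, rfl⟩ := Nat.exists_eq_add_of_le hkl
  induction d with
  | zero => exact hg
  | succ d ih =>
    have := PC_succ (1 : G) 1 (ih (by omega))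
    simpa [← add_assoc] using this

/-- `x y z` and `z y x` differ by one commutator -/
theorem PC_xyz (x y z : G) : PC 1 (x * y * z * (z * y * x)⁻¹) := by
  have : x * y * z * (z * y * x)⁻¹ =
      (x * y) * (z * x⁻¹) * (x * y)⁻¹ * (z * x⁻¹)⁻¹ := by group
  rw [this]; exact PC_comm _ _

/-- products of `k` commutators: moving a factor round the circle -/
theorem PC_rotate {k : ℕ} {g h : G} (hg : PC k (g * h)) : PC k (h * g) := by
  have := PC_conj h hg
  have e : h * (g * h) * h⁻¹ = h * g := by group
  rwa [e] at this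

end PC

/-! ## The free group and the words -/

/-- the free group of rank two -/
abbrev F := FreeGroup (Fin 2)

/-- first generator -/
def A : F := FreeGroup.of 0
/-- second generator -/
def B : F := FreeGroup.of 1
/-- `c = b a b⁻¹` -/
def C : F := B * A * B⁻¹

/-- evaluation of a list of factors: `inl x ↦ a^x`, `inr y ↦ c^y = b a^y b⁻¹` -/
def ev (l : List (ℤ ⊕ ℤ)) : F := (l.map (Sum.elim (fun x => A ^ x) (fun y => C ^ y))).prod

/-- the exponents of the `a`-factors -/
def xs (l : List (ℤ ⊕ ℤ)) : List ℤ := l.filterMap Sum.getLeft?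
/-- the exponents of the `c`-factors -/
def ys (l : List (ℤ ⊕ ℤ)) : List ℤ := l.filterMap Sum.getRight?

@[simp] theorem ev_nil : ev [] = 1 := rfl
@[simp] theorem ev_inl (x : ℤ) (l) : ev (Sum.inl x :: l) = A ^ x * ev l := rfl
@[simp] theorem ev_inr (y : ℤ) (l) : ev (Sum.inr y :: l) = C ^ y * ev l := rfl
@[simp] theorem ev_append (l l') : ev (l ++ l') = ev l * ev l' := by simp [ev]
@[simp] theorem xs_nil : xs [] = [] := rfl
@[simp] theorem ys_nil : ys [] = [] := rfl
@[simp] theorem xs_inl (x : ℤ) (l) : xs (Sum.inl x :: l) = x :: xs l := rfl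
@[simp] theorem xs_inr (y : ℤ) (l) : xs (Sum.inr y :: l) = xs l := rfl
@[simp] theorem ys_inl (x : ℤ) (l) : ys (Sum.inl x :: l) = ys l := rfl
@[simp] theorem ys_inr (y : ℤ) (l) : ys (Sum.inr y :: l) = y :: ys l := rfl
@[simp] theorem xs_append (l l') : xs (l ++ l') = xs l ++ xs l' := by simp [xs]
@[simp] theorem ys_append (l l') : ys (l ++ l') = ys l ++ ys l' := by simp [ys]

/-- **upper bound predicate**: every list of factors whose `c`-exponents form the multiset `M` and whose
`a`-exponents sum to `X` evaluates to a product of `m` commutators -/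
def H (M : Multiset ℤ) (X : ℤ) (m : ℕ) : Prop :=
  ∀ l : List (ℤ ⊕ ℤ), ((ys l : List ℤ) : Multiset ℤ) = M → (xs l).sum = X → PC m (ev l)

/-! ## Walks (lower bound) -/

/-- letters of the free group words: `(0,true) = a`, `(0,false) = a⁻¹`, `(1,true) = b`, `(1,false) = b⁻¹` -/
abbrev Letter := Fin 2 × Bool

/-- number of letters `b^{±1}` of a word -/
def nb (L : List Letter) : ℕ := L.countP (fun s => s.1 = 1)

section Walk
variable {V : Type} [AddCommGroup V] [Module ℚ V]

/-- an admissible step: `a` multiplies by `2`, `a⁻¹` divides by `2`, `b^{±1}` is free -/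
def okStep (s : Letter × V × V) : Prop :=
  s.1.1 = 0 → (if s.1.2 = true then s.2.2 = (2 : ℚ) • s.2.1 else s.2.1 = (2 : ℚ) • s.2.2)

/-- `t` is a walk from `p` to `q` -/
def Walk : V → V → List (Letter × V × V) → Prop
  | p, q, [] => p = q
  | p, q, s :: t => s.2.1 = p ∧ okStep s ∧ Walk s.2.2 q t

/-- (start, end) of the steps `b` -/
def bplus (t : List (Letter × V × V)) : Multiset (V × V) :=
  ((t.filter (fun s => s.1 = ((1 : Fin 2), true))).map (fun s => (s.2.1, s.2.2)) : List (V × V))

/-- (end, start) of the steps `b⁻¹` -/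
def bminus (t : List (Letter × V × V)) : Multiset (V × V) :=
  ((t.filter (fun s => s.1 = ((1 : Fin 2), false))).map (fun s => (s.2.2, s.2.1)) : List (V × V))

/-- all vertices of a walk -/
def verts (t : List (Letter × V × V)) : Set V := {v | ∃ s ∈ t, v = s.2.1 ∨ v = s.2.2}

/-- dimension of the span of the vertices -/
noncomputable def dimv (t : List (Letter × V × V)) : ℕ :=
  Module.finrank ℚ (Submodule.span ℚ (verts t))

end Walk

/-- **lower bound predicate**: some balanced closed walk based at `0` reads the word `L` and its vertices span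
a space of dimension at least `nb L / 2 - 2 g` -/
def Good (L : List Letter) (g : ℕ) : Prop :=
  ∃ (V : Type) (_ : AddCommGroup V) (_ : Module ℚ V) (t : List (Letter × V × V)),
    t.map Prod.fst = L ∧ Walk 0 0 t ∧ bplus t = bminus t ∧ nb L ≤ 2 * dimv t + 4 * g

/-- the block `a^x b a^y b⁻¹` as a word -/
def apow (x : ℤ) : List Letter := List.replicate x.natAbs ((0 : Fin 2), decide (0 < x))

/-- the block `a^x b a^y b⁻¹` as a word -/
def block (xy : ℤ × ℤ) : List Letter :=
  apow xy.1 ++ [((1 : Fin 2), true)] ++ apow xy.2 ++ [((1 : Fin 2), false)]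

/-- the word `∏ a^{x_i} b a^{y_i} b⁻¹` -/
def word (D : List (ℤ × ℤ)) : List Letter := (D.map block).flatten

/-- the factor list of `∏ a^{x_i} c^{y_i}` -/
def facs (D : List (ℤ × ℤ)) : List (ℤ ⊕ ℤ) := D.flatMap (fun xy => [Sum.inl xy.1, Sum.inr xy.2])

/-! ## Number theory predicate -/

/-- `Rep ρ l`: there are `l` positive integers (the multiset `c`) with sum `ρ Q`, such that `N` copies of them
can be divided into groups of sum `Q` and of even size -/
def Rep (ρ : ℚ) (l : ℕ) : Prop :=
  ∃ (Q : ℕ) (c : Multiset ℕ) (N : ℕ) (G : Multiset (Multiset ℕ)),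
    0 < Q ∧ 0 < N ∧ (∀ x ∈ c, 0 < x) ∧ Multiset.card c = l ∧ (c.sum : ℚ) = ρ * Q ∧
    G.sum = N • c ∧ ∀ g ∈ G, g.sum = Q ∧ Even (Multiset.card g)

end Pool.Agent.SC
end

section

set_option autoImplicit false
namespace Pool.Agent.SC

section
variable {V : Type} [AddCommGroup V] [Module ℚ V]

/-- Proof. For every linear functional `φ : V → ℚ` the sums of `|φ ·|` over the two multisets agree:
`∑ 2^{x_l} |φ X_l| = ∑ |φ X_l|`, and `2^{x_l} ≤ 1/2`, so every `φ X_l = 0`. Functionals separate points of a vector
space over a field (`Module.forall_dual_apply_eq_zero_iff` or `Module.Dual` separation). -/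
theorem X_zero (E : List (ℤ × V)) (hx : ∀ e ∈ E, e.1 < 0)
    (h : ((E.map (fun e => ((2 : ℚ) ^ e.1) • e.2) : List V) : Multiset V) =
      ((E.map (fun e => e.2) : List V) : Multiset V)) : ∀ e ∈ E, e.2 = 0 := by
  intro e he
  rw [← Module.forall_dual_apply_eq_zero_iff ℚ]
  intro φ
  by_contra hne
  have h1 := congrArg (fun m : Multiset V => (m.map (fun v => |φ v|)).sum) h
  simp only [Multiset.map_coe, Multiset.sum_coe, List.map_map] at h1
  have h2 : (E.map ((fun v => |φ v|) ∘ fun e : ℤ × V => ((2 : ℚ) ^ e.1) • e.2)).sum <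
      (E.map ((fun v => |φ v|) ∘ fun e : ℤ × V => e.2)).sum := by
    have h3 : ∀ i ∈ E, (2 : ℚ) ^ i.1 < 1 := fun i hi =>
      zpow_lt_one_of_neg₀ (by norm_num) (hx i hi)
    refine List.sum_lt_sum _ _ (fun i hi => ?_) ⟨e, he, ?_⟩
    · simp only [Function.comp_apply, map_smul, smul_eq_mul, abs_mul]
      rw [abs_of_pos (zpow_pos (by norm_num) _)]
      exact mul_le_of_le_one_left (abs_nonneg _) (h3 i hi).le
    · simp only [Function.comp_apply, map_smul, smul_eq_mul, abs_mul]
      rw [abs_of_pos (zpow_pos (by norm_num) _)]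
      exact mul_lt_of_lt_one_left (abs_pos.2 hne) (h3 e he)
  exact absurd h1 h2.ne

/-- the exponent function of a line: Proof: `g v = h` if `v = 2^h • f` (the exponent is unique as `f ≠ 0` and
`h ↦ 2^h` is injective on `ℚ`), `g v = 0` otherwise. Use `Classical.choice`. -/
theorem exists_expo (f : V) (hf : f ≠ 0) :
    ∃ g : V → ℤ, (∀ h : ℤ, g (((2 : ℚ) ^ h) • f) = h) ∧
      (∀ v, (¬ ∃ h : ℤ, v = ((2 : ℚ) ^ h) • f) → g v = 0) := by
  classical
  refine ⟨fun v => if h : ∃ k : ℤ, v = ((2 : ℚ) ^ k) • f then h.choose else 0, fun h => ?_,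
    fun v hv => dif_neg hv⟩
  have hex : ∃ k : ℤ, ((2 : ℚ) ^ h) • f = ((2 : ℚ) ^ k) • f := ⟨h, rfl⟩
  change (if h' : ∃ k : ℤ, ((2 : ℚ) ^ h) • f = ((2 : ℚ) ^ k) • f then h'.choose else 0) = h
  rw [dif_pos hex]
  have h1 := hex.choose_spec
  have h2 : (2 : ℚ) ^ h = (2 : ℚ) ^ hex.choose := smul_left_injective ℚ hf h1
  exact (zpow_right_injective₀ (by norm_num) (by norm_num) h2).symm

private theorem L9_sum_filter (E : List (ℤ × V)) (P : ℤ × V → Prop) [DecidablePred P] :
    (E.map (fun e => if P e then e.1 else 0)).sum = ((E.filter (fun e => P e)).map Prod.fst).sum := by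
  induction E with
  | nil => rfl
  | cons a E ih =>
    by_cases h : P a
    · simp [h, ih]
    · simp [h, ih]

open Classical in
/-- the exponents over one class sum to zero. Proof: apply `g` of `exists_expo` to both multisets and sum:
`∑ g (Y_l) = ∑ g (2^{y_l} Y_l)`; if `Y_l = 2^h f` the second value is `y_l + h`, else both are `0`. -/
theorem class_sum_zero (E : List (ℤ × V)) (f : V) (hf : f ≠ 0)
    (h : ((E.map (fun e => ((2 : ℚ) ^ e.1) • e.2) : List V) : Multiset V) =
      ((E.map (fun e => e.2) : List V) : Multiset V)) :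
    ((E.filter (fun e => ∃ h : ℤ, e.2 = ((2 : ℚ) ^ h) • f)).map Prod.fst).sum = 0 := by
  obtain ⟨g, hg1, hg2⟩ := exists_expo f hf
  have h1 := congrArg (fun m : Multiset V => (m.map g).sum) h
  simp only [Multiset.map_coe, Multiset.sum_coe, List.map_map] at h1
  rw [← L9_sum_filter E (fun e => ∃ h : ℤ, e.2 = ((2 : ℚ) ^ h) • f)]
  have h2 : (g ∘ fun e : ℤ × V => ((2 : ℚ) ^ e.1) • e.2) =
      fun e : ℤ × V => (if ∃ h : ℤ, e.2 = ((2 : ℚ) ^ h) • f then e.1 else 0) + g e.2 := by
    funext e
    by_cases he : ∃ h : ℤ, e.2 = ((2 : ℚ) ^ h) • f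
    · obtain ⟨k, hk⟩ := he
      have hex : ∃ h : ℤ, e.2 = ((2 : ℚ) ^ h) • f := ⟨k, hk⟩
      simp only [Function.comp_apply, if_pos hex]
      rw [hk, hg1, smul_smul, ← zpow_add₀ (by norm_num : (2 : ℚ) ≠ 0), hg1]
    · simp only [Function.comp_apply, if_neg he]
      rw [hg2 e.2 he, hg2, add_zero]
      rintro ⟨k, hk⟩
      refine he ⟨k - e.1, ?_⟩
      rw [zpow_sub₀ (by norm_num : (2 : ℚ) ≠ 0), div_eq_inv_mul, ← smul_smul, ← hk, smul_smul,
        inv_mul_cancel₀ (zpow_ne_zero _ (by norm_num)), one_smul]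
  rw [h2, List.sum_map_add] at h1
  have h3 : (g ∘ fun e : ℤ × V => e.2) = fun e : ℤ × V => g e.2 := rfl
  rw [h3] at h1
  linarith

end

end Pool.Agent.SC
end

section

set_option autoImplicit false
namespace Pool.Agent.SC

private theorem L10_split (K : List ℤ) :
    K.sum = (K.map (fun y => max y 0)).sum - (K.map (fun y => max (-y) 0)).sum := by
  induction K with
  | nil => simp
  | cons y K ih =>
    simp only [List.map_cons, List.sum_cons]
    rw [ih]
    have h : y = max y 0 - max (-y) 0 := by
      rcases le_total y 0 with h | h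
      · rw [max_eq_right h, max_eq_left (by linarith)]; ring
      · rw [max_eq_left h, max_eq_right (by linarith)]; ring
    linarith

private theorem L10_list (K : List ℤ) (Q : ℤ) (hne : K ≠ []) (h0 : K.sum = 0)
    (hy : ∀ y ∈ K, y ≠ 0) (hyQ : ∀ y ∈ K, 0 < y → y = Q) :
    Q ≤ (K.map (fun y => max (-y) 0)).sum := by
  have hsplit := L10_split K
  have hpos : ∃ y ∈ K, 0 < y := by
    by_contra hcon
    push Not at hcon
    obtain ⟨y, hyK⟩ := List.exists_mem_of_ne_nil K hne
    have h1 : (K.map (fun y => max y 0)).sum = 0 := by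
      apply List.sum_eq_zero
      intro z hz
      obtain ⟨w, hw, rfl⟩ := List.mem_map.1 hz
      exact max_eq_right (hcon w hw)
    have h2 : -y ≤ (K.map (fun y => max (-y) 0)).sum := by
      have h3 : max (-y) 0 ≤ (K.map (fun y => max (-y) 0)).sum := by
        apply List.single_le_sum
        · intro z hz
          obtain ⟨w, hw, rfl⟩ := List.mem_map.1 hz
          exact le_max_right _ _
        · exact List.mem_map.2 ⟨y, hyK, rfl⟩
      exact (le_max_left _ _).trans h3
    have h4 := hcon y hyK
    have h5 := hy y hyK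
    have h6 : y < 0 := lt_of_le_of_ne h4 h5
    linarith
  obtain ⟨y, hyK, hy0⟩ := hpos
  have h1 : y ≤ (K.map (fun y => max y 0)).sum := by
    have h3 : max y 0 ≤ (K.map (fun y => max y 0)).sum := by
      apply List.single_le_sum
      · intro z hz
        obtain ⟨w, hw, rfl⟩ := List.mem_map.1 hz
        exact le_max_right _ _
      · exact List.mem_map.2 ⟨y, hyK, rfl⟩
    exact (le_max_left _ _).trans h3
  have h2 := hyQ y hyK hy0
  linarith

section
variable {V : Type} [AddCommGroup V] [Module ℚ V]

open Classical in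
/-- one class. Proof: by `class_sum_zero` the sum of `y` over the class is `0`; the class is nonempty, all `y ≠ 0`, so
some `y > 0`, `y = Q`; the sum of the positive ones is `≥ Q`, and the sum of `max (-y) 0` equals the sum of
`max y 0`. -/
theorem class_neg_ge (E : List (ℤ × V)) (Q : ℤ) (hQ : 0 < Q) (hy : ∀ e ∈ E, e.1 ≠ 0)
    (hyQ : ∀ e ∈ E, 0 < e.1 → e.1 = Q) (f : V) (hf : f ≠ 0) (hfE : ∃ e ∈ E, e.2 = f)
    (h : ((E.map (fun e => ((2 : ℚ) ^ e.1) • e.2) : List V) : Multiset V) =
      ((E.map (fun e => e.2) : List V) : Multiset V)) :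
    Q ≤ ((E.filter (fun e => ∃ h : ℤ, e.2 = ((2 : ℚ) ^ h) • f)).map (fun e => max (-e.1) 0)).sum := by
  have h1 := L10_list ((E.filter (fun e => ∃ h : ℤ, e.2 = ((2 : ℚ) ^ h) • f)).map Prod.fst) Q
    ?_ (class_sum_zero E f hf h) ?_ ?_
  · rw [List.map_map] at h1
    exact h1
  · intro h2
    rw [List.map_eq_nil_iff] at h2
    obtain ⟨e, he, hef⟩ := hfE
    have h3 : e ∈ E.filter (fun e => ∃ h : ℤ, e.2 = ((2 : ℚ) ^ h) • f) := by
      rw [List.mem_filter]
      refine ⟨he, ?_⟩
      simp only [decide_eq_true_eq]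
      exact ⟨0, by rw [zpow_zero, one_smul, hef]⟩
    rw [h2] at h3
    exact absurd h3 (by simp)
  · intro y hyK
    obtain ⟨e, he, rfl⟩ := List.mem_map.1 hyK
    exact hy e (List.mem_of_mem_filter he)
  · intro y hyK
    obtain ⟨e, he, rfl⟩ := List.mem_map.1 hyK
    exact hyQ e (List.mem_of_mem_filter he)

open Classical in
private theorem L10_filter_sum {α : Type} (E : List α) (P : α → Prop) (g : α → ℤ) :
    ((E.filter (fun e => P e)).map g).sum = (E.map (fun e => if P e then g e else 0)).sum := by
  induction E with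
  | nil => simp
  | cons e E ih =>
    rw [List.filter_cons, List.map_cons, List.sum_cons]
    by_cases h : P e
    · simp only [h, decide_true, if_true, List.map_cons, List.sum_cons, ih]
    · simp only [h, decide_false, if_false, zero_add]
      simpa using ih

private theorem L10_sum_comm {α : Type} (E : List α) {N : ℕ} (g : Fin N → α → ℤ) :
    ∑ i, (E.map (g i)).sum = (E.map (fun e => ∑ i, g i e)).sum := by
  induction E with
  | nil => simp
  | cons e E ih =>
    simp only [List.map_cons, List.sum_cons, Finset.sum_add_distrib, ih]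

/-- **dimension bound.** Proof: let `S = {Y_l}` (finite). Choose `f : Fin N → V`, `N = finrank (span S)`, linearly
independent with values in `S` (`exists_fun_fin_finrank_span_eq` or a basis extracted from the spanning set). The
classes `{e | ∃ h, e.2 = 2^h • f i}` are pairwise disjoint (`f i`, `f j` independent; and `f i ≠ 0`), so
`N * Q ≤ ∑_i ∑_{class i} max (-y) 0 ≤ ∑_E max (-y) 0` (all terms are `≥ 0`; every `e` lies in at most one class). -/
theorem dim_bound (E : List (ℤ × V)) (Q : ℤ) (hQ : 0 < Q) (hy : ∀ e ∈ E, e.1 ≠ 0)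
    (hyQ : ∀ e ∈ E, 0 < e.1 → e.1 = Q)
    (h : ((E.map (fun e => ((2 : ℚ) ^ e.1) • e.2) : List V) : Multiset V) =
      ((E.map (fun e => e.2) : List V) : Multiset V)) :
    Q * (Module.finrank ℚ (Submodule.span ℚ {v | ∃ e ∈ E, v = e.2}) : ℤ) ≤
      (E.map (fun e => max (-e.1) 0)).sum := by
  classical
  have hfin : {v | ∃ e ∈ E, v = e.2}.Finite := by
    have h1 : {v | ∃ e ∈ E, v = e.2} = {v | v ∈ E.map Prod.snd} := by
      ext v
      simp only [Set.mem_ofPred_eq, List.mem_map]
      constructor
      · rintro ⟨e, he, rfl⟩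
        exact ⟨e, he, rfl⟩
      · rintro ⟨e, he, rfl⟩
        exact ⟨e, he, rfl⟩
    rw [h1]
    exact List.finite_toSet _
  have hfd : FiniteDimensional ℚ (Submodule.span ℚ {v | ∃ e ∈ E, v = e.2}) :=
    FiniteDimensional.span_of_finite ℚ hfin
  obtain ⟨f, hfS, -, hli⟩ := Submodule.exists_fun_fin_finrank_span_eq ℚ {v | ∃ e ∈ E, v = e.2}
  have h1 : ∀ i, Q ≤ (E.map (fun e => if (∃ h : ℤ, e.2 = ((2 : ℚ) ^ h) • f i) then
      max (-e.1) 0 else 0)).sum := by
    intro i
    rw [← L10_filter_sum E (fun e => ∃ h : ℤ, e.2 = ((2 : ℚ) ^ h) • f i) (fun e => max (-e.1) 0)]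
    obtain ⟨e, he, hfe⟩ := hfS i
    exact class_neg_ge E Q hQ hy hyQ (f i) (hli.ne_zero i) ⟨e, he, hfe.symm⟩ h
  have h2 : Q * (Module.finrank ℚ (Submodule.span ℚ {v | ∃ e ∈ E, v = e.2}) : ℤ) ≤
      ∑ i, (E.map (fun e => if (∃ h : ℤ, e.2 = ((2 : ℚ) ^ h) • f i) then
        max (-e.1) 0 else 0)).sum := by
    calc Q * (Module.finrank ℚ (Submodule.span ℚ {v | ∃ e ∈ E, v = e.2}) : ℤ)
        = ∑ _i : Fin (Module.finrank ℚ (Submodule.span ℚ {v | ∃ e ∈ E, v = e.2})), Q := by
          rw [Finset.sum_const, Finset.card_univ, Fintype.card_fin, nsmul_eq_mul, mul_comm]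
      _ ≤ _ := Finset.sum_le_sum fun i _ => h1 i
  refine h2.trans ?_
  rw [L10_sum_comm]
  apply List.sum_le_sum
  intro e _
  have h0 : 0 ≤ max (-e.1) 0 := le_max_right _ _
  by_cases hex : ∃ i, ∃ h : ℤ, e.2 = ((2 : ℚ) ^ h) • f i
  · obtain ⟨i, hi⟩ := hex
    have h3 : ∀ j, j ≠ i → ¬ ∃ h : ℤ, e.2 = ((2 : ℚ) ^ h) • f j := by
      rintro j hji ⟨k, hk⟩
      obtain ⟨k', hk'⟩ := hi
      have h4 : f j = (((2 : ℚ) ^ k)⁻¹ * (2 : ℚ) ^ k') • f i := by
        rw [mul_smul, ← hk', hk, inv_smul_smul₀]
        exact zpow_ne_zero _ (by norm_num)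
      have h5 := hli.notMem_span_image (s := {i}) (x := j) (by simpa using hji)
      apply h5
      rw [Set.image_singleton, h4]
      exact Submodule.smul_mem _ _ (Submodule.mem_span_singleton_self _)
    rw [Finset.sum_eq_single i]
    · rw [if_pos hi]
    · intro j _ hj
      rw [if_neg (h3 j hj)]
    · exact fun h4 => absurd (Finset.mem_univ i) h4
  · push Not at hex
    rw [Finset.sum_eq_zero]
    · exact h0
    · intro i _
      rw [if_neg]
      rintro ⟨k, hk⟩
      exact hex i k hk

end

end Pool.Agent.SC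
end

section

set_option autoImplicit false
namespace Pool.Agent.SC

section
variable {V W : Type} [AddCommGroup V] [Module ℚ V] [AddCommGroup W] [Module ℚ W]

/-- the image of a list of steps under a linear map -/
def mapw (f : V →ₗ[ℚ] W) (t : List (Letter × V × V)) : List (Letter × W × W) :=
  t.map (fun s => (s.1, f s.2.1, f s.2.2))

/-- Proof: induction on `t` (`okStep` is preserved by `map_smul`). -/
theorem Walk.mapw (f : V →ₗ[ℚ] W) {p q : V} {t : List (Letter × V × V)} (h : Walk p q t) :
    Walk (f p) (f q) (mapw f t) := by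
  induction t generalizing p with
  | nil =>
    have h1 : p = q := h
    exact congrArg f h1
  | cons s t ih =>
    obtain ⟨h1, h2, h3⟩ := h
    refine ⟨congrArg f h1, ?_, ih h3⟩
    intro hs
    have h4 := h2 hs
    by_cases hb : s.1.2 = true
    · rw [if_pos hb] at h4
      change (if s.1.2 = true then f s.2.2 = (2 : ℚ) • f s.2.1 else f s.2.1 = (2 : ℚ) • f s.2.2)
      rw [if_pos hb, h4, map_smul]
    · rw [if_neg hb] at h4
      change (if s.1.2 = true then f s.2.2 = (2 : ℚ) • f s.2.1 else f s.2.1 = (2 : ℚ) • f s.2.2)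
      rw [if_neg hb, h4, map_smul]

theorem mapw_fst (f : V →ₗ[ℚ] W) (t : List (Letter × V × V)) :
    (mapw f t).map Prod.fst = t.map Prod.fst := by
  unfold mapw
  rw [List.map_map]
  rfl

/-- Proof: `bplus (mapw f t) = (bplus t).map (Prod.map f f)`, and the same for `bminus`. -/
theorem bplus_mapw (f : V →ₗ[ℚ] W) (t : List (Letter × V × V)) :
    bplus (mapw f t) = (bplus t).map (Prod.map f f) := by
  unfold bplus mapw
  rw [List.filter_map, List.map_map, Multiset.map_coe, List.map_map]
  rfl

theorem bminus_mapw (f : V →ₗ[ℚ] W) (t : List (Letter × V × V)) :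
    bminus (mapw f t) = (bminus t).map (Prod.map f f) := by
  unfold bminus mapw
  rw [List.filter_map, List.map_map, Multiset.map_coe, List.map_map]
  rfl

theorem verts_mapw (f : V →ₗ[ℚ] W) (t : List (Letter × V × V)) :
    verts (mapw f t) = f '' verts t := by
  ext w
  constructor
  · rintro ⟨s, hs, h⟩
    unfold mapw at hs
    rw [List.mem_map] at hs
    obtain ⟨s', hs', rfl⟩ := hs
    rcases h with h | h
    · exact ⟨s'.2.1, ⟨s', hs', Or.inl rfl⟩, h.symm⟩
    · exact ⟨s'.2.2, ⟨s', hs', Or.inr rfl⟩, h.symm⟩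
  · rintro ⟨v, ⟨s, hs, h⟩, rfl⟩
    refine ⟨(s.1, f s.2.1, f s.2.2), List.mem_map.2 ⟨s, hs, rfl⟩, ?_⟩
    rcases h with h | h
    · exact Or.inl (congrArg f h)
    · exact Or.inr (congrArg f h)

/-- Proof: `verts t` is finite, `LinearMap.finrank_map_le`-type statement: the span of `f '' S` is the image of the
span of `S` (`Submodule.map_span`), and for injective `f` the dimensions agree (`LinearMap.finrank_map_eq` or
`LinearEquiv.finrank_eq` of `Submodule.equivMapOfInjective`). -/
theorem dimv_mapw_inj (f : V →ₗ[ℚ] W) (hf : Function.Injective f) (t : List (Letter × V × V)) :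
    dimv (mapw f t) = dimv t := by
  unfold dimv
  rw [verts_mapw, ← Submodule.map_span]
  exact (Submodule.equivMapOfInjective f hf _).finrank_eq.symm

/-- dimension drops by at most one under a quotient by one vector.
Proof: let `S = span (verts t)` (finite-dimensional as `verts t` is finite). The restriction of `f` to `S` has kernel
contained in the span of `v`, of dimension `≤ 1`, and its range is `S.map f = span (verts (mapw f t))`; rank-nullity
(`LinearMap.finrank_range_add_finrank_ker`). -/
theorem dimv_mapw_le (f : V →ₗ[ℚ] W) (v : V) (hf : LinearMap.ker f ≤ Submodule.span ℚ {v})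
    (t : List (Letter × V × V)) : dimv t ≤ dimv (mapw f t) + 1 := by
  have hfin : (verts t).Finite := by
    induction t with
    | nil =>
      have h1 : verts ([] : List (Letter × V × V)) = ∅ := by
        ext w
        constructor
        · rintro ⟨s, hs, -⟩
          simp at hs
        · intro h
          exact h.elim
      rw [h1]
      exact Set.finite_empty
    | cons s t ih =>
      refine Set.Finite.subset ((Set.toFinite {s.2.1, s.2.2}).union ih) ?_
      rintro w ⟨s', hs', h⟩
      rcases List.mem_cons.1 hs' with h1 | h1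
      · subst h1
        left
        rcases h with h | h
        · exact Or.inl h
        · exact Or.inr h
      · exact Or.inr ⟨s', h1, h⟩
  obtain ⟨S, hS⟩ : ∃ S, S = Submodule.span ℚ (verts t) := ⟨_, rfl⟩
  have hSfd : FiniteDimensional ℚ S := by
    rw [hS]
    exact FiniteDimensional.span_of_finite ℚ hfin
  have h1 : dimv t = Module.finrank ℚ S := by
    unfold dimv
    rw [hS]
  have h2 : dimv (mapw f t) = Module.finrank ℚ (S.map f) := by
    unfold dimv
    rw [verts_mapw, ← Submodule.map_span, hS]
  have h3 := LinearMap.finrank_range_add_finrank_ker (f.domRestrict S)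
  rw [LinearMap.range_domRestrict] at h3
  have h4 : Module.finrank ℚ (LinearMap.ker (f.domRestrict S)) ≤ 1 := by
    have h5 : (LinearMap.ker (f.domRestrict S)).map S.subtype ≤ Submodule.span ℚ {v} := by
      refine le_trans ?_ hf
      rintro _ ⟨x, hx, rfl⟩
      exact hx
    have h6 : Module.finrank ℚ (LinearMap.ker (f.domRestrict S)) =
        Module.finrank ℚ ((LinearMap.ker (f.domRestrict S)).map S.subtype) :=
      (Submodule.equivMapOfInjective S.subtype S.injective_subtype _).finrank_eq
    rw [h6]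
    refine (Submodule.finrank_mono h5).trans ?_
    have h7 := finrank_span_le_card (R := ℚ) ({v} : Set V)
    simpa using h7
  omega

end

end Pool.Agent.SC
end

section

set_option autoImplicit false
namespace Pool.Agent.SC

section
variable {V : Type} [AddCommGroup V] [Module ℚ V]

/-- Proof: induction on `t`. -/
theorem Walk_append {p q : V} {t t' : List (Letter × V × V)} :
    Walk p q (t ++ t') ↔ ∃ r, Walk p r t ∧ Walk r q t' := by
  induction t generalizing p with
  | nil =>
    constructor
    · intro h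
      exact ⟨p, rfl, h⟩
    · rintro ⟨r, h1, h2⟩
      have h3 : p = r := h1
      subst h3
      exact h2
  | cons s t ih =>
    constructor
    · rintro ⟨h1, h2, h3⟩
      obtain ⟨r, h4, h5⟩ := ih.1 h3
      exact ⟨r, ⟨h1, h2, h4⟩, h5⟩
    · rintro ⟨r, ⟨h1, h2, h4⟩, h5⟩
      exact ⟨h1, h2, ih.2 ⟨r, h4, h5⟩⟩

theorem bplus_append (t t' : List (Letter × V × V)) : bplus (t ++ t') = bplus t + bplus t' := by
  unfold bplus
  rw [List.filter_append, List.map_append, ← Multiset.coe_add]

theorem bminus_append (t t' : List (Letter × V × V)) : bminus (t ++ t') = bminus t + bminus t' := by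
  unfold bminus
  rw [List.filter_append, List.map_append, ← Multiset.coe_add]

theorem bplus_cons (s : Letter × V × V) (t : List (Letter × V × V)) :
    bplus (s :: t) = (if s.1 = ((1 : Fin 2), true) then {(s.2.1, s.2.2)} else 0) + bplus t := by
  unfold bplus
  by_cases h : s.1 = ((1 : Fin 2), true)
  · rw [List.filter_cons_of_pos (by simpa using h), List.map_cons, if_pos h, ← Multiset.cons_coe,
      Multiset.singleton_add]
  · rw [List.filter_cons_of_neg (by simpa using h), if_neg h, zero_add]

theorem bminus_cons (s : Letter × V × V) (t : List (Letter × V × V)) :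
    bminus (s :: t) = (if s.1 = ((1 : Fin 2), false) then {(s.2.2, s.2.1)} else 0) + bminus t := by
  unfold bminus
  by_cases h : s.1 = ((1 : Fin 2), false)
  · rw [List.filter_cons_of_pos (by simpa using h), List.map_cons, if_pos h, ← Multiset.cons_coe,
      Multiset.singleton_add]
  · rw [List.filter_cons_of_neg (by simpa using h), if_neg h, zero_add]

theorem verts_append (t t' : List (Letter × V × V)) : verts (t ++ t') = verts t ∪ verts t' := by
  ext w
  constructor
  · rintro ⟨s, hs, h⟩
    rcases List.mem_append.1 hs with h1 | h1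
    · exact Or.inl ⟨s, h1, h⟩
    · exact Or.inr ⟨s, h1, h⟩
  · rintro (⟨s, hs, h⟩ | ⟨s, hs, h⟩)
    · exact ⟨s, List.mem_append_left _ hs, h⟩
    · exact ⟨s, List.mem_append_right _ hs, h⟩

theorem verts_cons (s : Letter × V × V) (t : List (Letter × V × V)) :
    verts (s :: t) = {s.2.1, s.2.2} ∪ verts t := by
  ext w
  constructor
  · rintro ⟨s', hs', h⟩
    rcases List.mem_cons.1 hs' with h1 | h1
    · subst h1
      exact Or.inl h
    · exact Or.inr ⟨s', h1, h⟩
  · rintro (h | ⟨s', hs', h⟩)
    · exact ⟨s, List.mem_cons_self, h⟩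
    · exact ⟨s', List.mem_cons_of_mem _ hs', h⟩

/-- Proof: induction, or `List.finite_toSet`-type argument: the union over `s ∈ t` of `{s.2.1, s.2.2}`. -/
theorem verts_finite (t : List (Letter × V × V)) : (verts t).Finite := by
  induction t with
  | nil =>
    have h1 : verts ([] : List (Letter × V × V)) = ∅ := by
      ext w
      constructor
      · rintro ⟨s, hs, -⟩
        simp at hs
      · intro h
        exact h.elim
    rw [h1]
    exact Set.finite_empty
  | cons s t ih =>
    rw [verts_cons]
    exact (Set.toFinite _).union ih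

theorem nb_append (L L' : List Letter) : nb (L ++ L') = nb L + nb L' := by
  unfold nb
  rw [List.countP_append]

/-- reversed walk: Proof: `Walk_append` and induction; `okStep` is symmetric under reversal together with inversion
of the letter (`a` forwards is `a⁻¹` backwards). -/
def revw (t : List (Letter × V × V)) : List (Letter × V × V) :=
  (t.map (fun s => ((s.1.1, !s.1.2), s.2.2, s.2.1))).reverse

theorem Walk_revw {p q : V} {t : List (Letter × V × V)} (h : Walk p q t) : Walk q p (revw t) := by
  induction t generalizing p with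
  | nil =>
    have h1 : p = q := h
    exact h1.symm
  | cons s t ih =>
    obtain ⟨h1, h2, h3⟩ := h
    have h4 := ih h3
    unfold revw at h4 ⊢
    rw [List.map_cons, List.reverse_cons, Walk_append]
    refine ⟨s.2.2, h4, rfl, ?_, h1⟩
    intro hs
    have h5 := h2 hs
    change (if (!s.1.2) = true then s.2.1 = (2 : ℚ) • s.2.2 else s.2.2 = (2 : ℚ) • s.2.1)
    cases hb : s.1.2 with
    | true =>
      rw [hb] at h5
      simpa using h5
    | false =>
      rw [hb] at h5
      simpa using h5

theorem revw_fst (t : List (Letter × V × V)) :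
    (revw t).map Prod.fst = FreeGroup.invRev (t.map Prod.fst) := by
  unfold revw FreeGroup.invRev
  rw [List.map_reverse, List.map_map, List.map_map]
  rfl

/-- Proof: a step `b⁻¹` of `t` from `p` to `q` becomes a step `b` from `q` to `p`. -/
theorem bplus_revw (t : List (Letter × V × V)) : bplus (revw t) = bminus t := by
  unfold bplus bminus revw
  rw [List.filter_reverse, List.map_reverse, Multiset.coe_reverse, List.filter_map, List.map_map]
  congr 2
  refine List.filter_congr fun s _ => ?_
  obtain ⟨⟨i, b⟩, x, y⟩ := s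
  cases b <;> simp

theorem bminus_revw (t : List (Letter × V × V)) : bminus (revw t) = bplus t := by
  unfold bplus bminus revw
  rw [List.filter_reverse, List.map_reverse, Multiset.coe_reverse, List.filter_map, List.map_map]
  congr 2
  refine List.filter_congr fun s _ => ?_
  obtain ⟨⟨i, b⟩, x, y⟩ := s
  cases b <;> simp

theorem verts_revw (t : List (Letter × V × V)) : verts (revw t) = verts t := by
  unfold revw
  ext w
  constructor
  · rintro ⟨s, hs, h⟩
    rw [List.mem_reverse, List.mem_map] at hs
    obtain ⟨s', hs', rfl⟩ := hs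
    exact ⟨s', hs', h.symm⟩
  · rintro ⟨s, hs, h⟩
    refine ⟨((s.1.1, !s.1.2), s.2.2, s.2.1), ?_, h.symm⟩
    rw [List.mem_reverse, List.mem_map]
    exact ⟨s, hs, rfl⟩

end

end Pool.Agent.SC
end

section

set_option autoImplicit false
namespace Pool.Agent.SC

/-- the end point of a walk is its start point or one of its vertices -/
theorem L3_end {V : Type} [AddCommGroup V] [Module ℚ V] {t : List (Letter × V × V)} :
    ∀ {p q : V}, Walk p q t → q = p ∨ q ∈ verts t := by
  induction t with
  | nil =>
    intro p q h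
    exact Or.inl h.symm
  | cons s t ih =>
    intro p q h
    obtain ⟨h1, h2, h3⟩ := h
    rcases ih h3 with h4 | h4
    · right
      exact ⟨s, List.mem_cons_self, Or.inr h4⟩
    · right
      obtain ⟨s', h5, h6⟩ := h4
      exact ⟨s', List.mem_cons_of_mem _ h5, h6⟩

/-- the case of the generator `a`.
Proof. Split the walk (`t.map Prod.fst = L1 ++ (0,e) :: (0,!e) :: L2`, `List.map_eq_append_iff`, `List.map_eq_cons_iff`):
`t = t1 ++ s :: s' :: t2`, `Walk 0 r t1`, `s.2.1 = r`, `s.2.2 = u`, `s'.2.1 = u`, `s'.2.2 = r'`, `Walk r' 0 t2`.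
`okStep` gives `r' = r` and `u = 2 r` or `r = 2 u` (so `u = (1/2) r`). So `t1 ++ t2` is a closed walk with the same
`bplus`, `bminus`, `nb`; `span (verts (t1 ++ t2)) = span (verts t)`: `u` is a multiple of `r`, and `r` is either in
`verts (t1 ++ t2)` or (when `t1 = []` and `t2 = []`) `r = 0` (`Walk 0 r []`). Simplest: show
`verts t ⊆ span (verts (t1 ++ t2))`, using the lemma: if `Walk p q t` then `q = p` or `q ∈ verts t`
(end point) and `p = q` or `p ∈ verts t` (start point). -/
theorem Good_del_a {L1 L2 : List Letter} {e : Bool} {g : ℕ}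
    (h : Good (L1 ++ ((0 : Fin 2), e) :: ((0 : Fin 2), !e) :: L2) g) : Good (L1 ++ L2) g := by
  obtain ⟨V, i1, i2, t, hL, hw, hb, hn⟩ := h
  rw [List.map_eq_append_iff] at hL
  obtain ⟨t1, t', rfl, h1, h2⟩ := hL
  rw [List.map_eq_cons_iff] at h2
  obtain ⟨s, t'', rfl, hs, h3⟩ := h2
  rw [List.map_eq_cons_iff] at h3
  obtain ⟨s', t2, rfl, hs', h4⟩ := h3
  rw [Walk_append] at hw
  obtain ⟨r, hw1, hw2⟩ := hw
  obtain ⟨hr, hok, hr', hok', hw3⟩ := hw2
  have h10 : ((0 : Fin 2), e) ≠ ((1 : Fin 2), true) := by
    intro h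
    have h' : (0 : Fin 2) = 1 := congrArg Prod.fst h
    exact absurd h' (by decide)
  have h11 : ((0 : Fin 2), e) ≠ ((1 : Fin 2), false) := by
    intro h
    have h' : (0 : Fin 2) = 1 := congrArg Prod.fst h
    exact absurd h' (by decide)
  have h12 : ((0 : Fin 2), !e) ≠ ((1 : Fin 2), true) := by
    intro h
    have h' : (0 : Fin 2) = 1 := congrArg Prod.fst h
    exact absurd h' (by decide)
  have h13 : ((0 : Fin 2), !e) ≠ ((1 : Fin 2), false) := by
    intro h
    have h' : (0 : Fin 2) = 1 := congrArg Prod.fst h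
    exact absurd h' (by decide)
  have hk := hok (by rw [hs])
  have hk' := hok' (by rw [hs'])
  rw [hs] at hk
  rw [hs'] at hk'
  -- the end point of the two steps, and the middle point
  have hend : s'.2.2 = r ∧ s.2.2 ∈ Submodule.span ℚ ({r} : Set V) := by
    cases e with
    | true =>
      simp only [if_true] at hk
      simp only [Bool.not_true, Bool.false_eq_true, if_false] at hk'
      rw [hr'] at hk'
      constructor
      · have h5 : (2 : ℚ) • s'.2.2 = (2 : ℚ) • r := by rw [← hk', hk, hr]
        have h6 := congrArg (fun v : V => (1 / 2 : ℚ) • v) h5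
        simp only [smul_smul] at h6
        norm_num at h6
        exact h6
      · rw [hk, hr]
        exact Submodule.smul_mem _ _ (Submodule.mem_span_singleton_self r)
    | false =>
      simp only [Bool.false_eq_true, if_false] at hk
      simp only [Bool.not_false, if_true] at hk'
      rw [hr', ← hk, hr] at hk'
      refine ⟨hk', ?_⟩
      rw [hr] at hk
      have h6 : s.2.2 = (1 / 2 : ℚ) • r := by
        rw [hk, smul_smul]
        norm_num
      rw [h6]
      exact Submodule.smul_mem _ _ (Submodule.mem_span_singleton_self r)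
  refine ⟨V, i1, i2, t1 ++ t2, ?_, ?_, ?_, ?_⟩
  · rw [List.map_append, h1, h4]
  · rw [Walk_append]
    exact ⟨r, hw1, hend.1 ▸ hw3⟩
  · rw [bplus_append, bminus_append, bplus_cons, bminus_cons, bplus_cons, bminus_cons, hs, hs',
      if_neg h10, if_neg h11, if_neg h12, if_neg h13, zero_add, zero_add, zero_add, zero_add] at hb
    rw [bplus_append, bminus_append]
    exact hb
  · have hnb : nb (L1 ++ ((0 : Fin 2), e) :: ((0 : Fin 2), !e) :: L2) = nb (L1 ++ L2) := by
      rw [nb_append, nb_append]
      unfold nb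
      rw [List.countP_cons_of_neg (by simp), List.countP_cons_of_neg (by simp)]
    rw [hnb] at hn
    have hr0 : r ∈ Submodule.span ℚ (verts (t1 ++ t2)) := by
      rcases L3_end hw1 with h5 | h5
      · rw [h5]
        exact zero_mem _
      · apply Submodule.subset_span
        rw [verts_append]
        exact Or.inl h5
    have hu0 : s.2.2 ∈ Submodule.span ℚ (verts (t1 ++ t2)) := by
      have h5 : Submodule.span ℚ ({r} : Set V) ≤ Submodule.span ℚ (verts (t1 ++ t2)) := by
        rw [Submodule.span_singleton_le_iff_mem]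
        exact hr0
      exact h5 hend.2
    have hle : Submodule.span ℚ (verts (t1 ++ s :: s' :: t2)) ≤
        Submodule.span ℚ (verts (t1 ++ t2)) := by
      rw [Submodule.span_le]
      intro v hv
      rw [verts_append, verts_cons, verts_cons] at hv
      rcases hv with hv | (hv | hv) | (hv | hv) | hv
      · apply Submodule.subset_span
        rw [verts_append]
        exact Or.inl hv
      · rw [hv, hr]
        exact hr0
      · rw [hv]
        exact hu0
      · rw [hv, hr']
        exact hu0
      · rw [hv, hend.1]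
        exact hr0
      · apply Submodule.subset_span
        rw [verts_append]
        exact Or.inr hv
    have hfin : FiniteDimensional ℚ (Submodule.span ℚ (verts (t1 ++ t2))) :=
      FiniteDimensional.span_of_finite ℚ (verts_finite _)
    have hd : dimv (t1 ++ s :: s' :: t2) ≤ dimv (t1 ++ t2) := by
      unfold dimv
      exact Submodule.finrank_mono hle
    omega

end Pool.Agent.SC
end

section

set_option autoImplicit false
namespace Pool.Agent.SC

section L4aux
variable {V W : Type} [AddCommGroup V] [Module ℚ V] [AddCommGroup W] [Module ℚ W]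

private theorem L4_end {p q : V} {t : List (Letter × V × V)} (h : Walk p q t) :
    q = p ∨ q ∈ verts t := by
  induction t generalizing p with
  | nil => exact Or.inl (Eq.symm h)
  | cons s t ih =>
    obtain ⟨_, _, h3⟩ := h
    right
    rw [verts_cons]
    rcases ih h3 with h4 | h4
    · left
      rw [h4]
      exact Or.inr rfl
    · exact Or.inr h4

private theorem L4_mem_bplus {x y : V} {t : List (Letter × V × V)} (h : (x, y) ∈ bplus t) :
    x ∈ verts t ∧ y ∈ verts t := by
  induction t with
  | nil => exact absurd h (by simp [bplus])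
  | cons s t ih =>
    rw [bplus_cons, Multiset.mem_add] at h
    rw [verts_cons]
    rcases h with h | h
    · split_ifs at h with h1
      · rw [Multiset.mem_singleton] at h
        obtain ⟨h2, h3⟩ := Prod.mk.inj h
        exact ⟨Or.inl (Or.inl h2), Or.inl (Or.inr h3)⟩
      · exact absurd h (Multiset.notMem_zero _)
    · exact ⟨Or.inr (ih h).1, Or.inr (ih h).2⟩

private theorem L4_mem_bminus {x y : V} {t : List (Letter × V × V)} (h : (x, y) ∈ bminus t) :
    x ∈ verts t ∧ y ∈ verts t := by
  induction t with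
  | nil => exact absurd h (by simp [bminus])
  | cons s t ih =>
    rw [bminus_cons, Multiset.mem_add] at h
    rw [verts_cons]
    rcases h with h | h
    · split_ifs at h with h1
      · rw [Multiset.mem_singleton] at h
        obtain ⟨h2, h3⟩ := Prod.mk.inj h
        exact ⟨Or.inl (Or.inr h2), Or.inl (Or.inl h3)⟩
      · exact absurd h (Multiset.notMem_zero _)
    · exact ⟨Or.inr (ih h).1, Or.inr (ih h).2⟩

/-- balance of the shortened walk -/
private theorem L4_bal (f : V →ₗ[ℚ] W) (e : Bool) (r u r' : V) (hf : f r = f r')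
    (t1 t2 : List (Letter × V × V))
    (hbal : bplus (t1 ++ (((1 : Fin 2), e), r, u) :: (((1 : Fin 2), !e), u, r') :: t2) =
      bminus (t1 ++ (((1 : Fin 2), e), r, u) :: (((1 : Fin 2), !e), u, r') :: t2)) :
    bplus (mapw f t1 ++ mapw f t2) = bminus (mapw f t1 ++ mapw f t2) := by
  have h1 := congrArg (Multiset.map (Prod.map f f)) hbal
  rw [bplus_append, bplus_cons, bplus_cons, bminus_append, bminus_cons, bminus_cons,
    Multiset.map_add, Multiset.map_add, Multiset.map_add, Multiset.map_add, Multiset.map_add,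
    Multiset.map_add] at h1
  rw [bplus_append, bminus_append, bplus_mapw, bplus_mapw, bminus_mapw, bminus_mapw]
  cases e with
  | true =>
    simp only [Bool.not_true, if_true, Prod.mk.injEq, true_and, Bool.false_eq_true,
      Bool.true_eq_false, if_false, Multiset.map_zero, zero_add, Multiset.map_singleton,
      Prod.map_apply] at h1
    rw [hf, add_left_comm, add_left_comm (Multiset.map (Prod.map f f) (bminus t1))] at h1
    exact add_left_cancel h1
  | false =>
    simp only [Bool.not_false, if_true, Prod.mk.injEq, true_and, Bool.false_eq_true,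
      Bool.true_eq_false, if_false, Multiset.map_zero, zero_add, Multiset.map_singleton,
      Prod.map_apply] at h1
    rw [hf, add_left_comm, add_left_comm (Multiset.map (Prod.map f f) (bminus t1))] at h1
    exact add_left_cancel h1

private theorem L4_mem_u (e : Bool) (r u r' : V) (hr : r ≠ r') (t1 t2 : List (Letter × V × V))
    (hbal : bplus (t1 ++ (((1 : Fin 2), e), r, u) :: (((1 : Fin 2), !e), u, r') :: t2) =
      bminus (t1 ++ (((1 : Fin 2), e), r, u) :: (((1 : Fin 2), !e), u, r') :: t2)) :
    u ∈ verts t1 ∪ verts t2 := by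
  rw [bplus_append, bplus_cons, bplus_cons, bminus_append, bminus_cons, bminus_cons] at hbal
  cases e with
  | true =>
    simp only [Bool.not_true, if_true, Prod.mk.injEq, true_and, Bool.false_eq_true,
      Bool.true_eq_false, if_false, zero_add] at hbal
    have h1 : (r, u) ∈ bminus t1 + ({(r', u)} + bminus t2) := by
      rw [← hbal]
      simp
    rw [Multiset.mem_add, Multiset.mem_add, Multiset.mem_singleton] at h1
    rcases h1 with h1 | h1 | h1
    · exact Or.inl (L4_mem_bminus h1).2
    · exact absurd (Prod.mk.inj h1).1 hr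
    · exact Or.inr (L4_mem_bminus h1).2
  | false =>
    simp only [Bool.not_false, if_true, Prod.mk.injEq, true_and, Bool.false_eq_true,
      Bool.true_eq_false, if_false, zero_add] at hbal
    have h1 : (u, r) ∈ bplus t1 + ({(u, r')} + bplus t2) := by
      rw [hbal]
      simp
    rw [Multiset.mem_add, Multiset.mem_add, Multiset.mem_singleton] at h1
    rcases h1 with h1 | h1 | h1
    · exact Or.inl (L4_mem_bplus h1).1
    · exact absurd (Prod.mk.inj h1).2 hr
    · exact Or.inr (L4_mem_bplus h1).1

end L4aux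

/-- the case of the generator `b` (the heart of the lower bound).
Proof. Split `t = t1 ++ s :: s' :: t2`: `Walk 0 r t1`, `s = ((1,e), r, u)`, `s' = ((1,!e), u, r')`, `Walk r' 0 t2`.
`nb` of the new word is `nb - 2`, so it is enough to find a balanced closed walk at `0` reading `L1 ++ L2` with
`dimv ≥ dimv t - 1`.
Case `r = r'`: the walk `t1 ++ t2`. Balanced: `bplus t` and `bminus t` both contain the pair `(r,u)` (if `e = true`;
if `e = false` both contain `(u,r)`), cancel it. Dimension: `verts t ⊆ verts (t1 ++ t2) ∪ {0, u}` (start/end points: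
`r` is an end point of `t1`, so `r = 0` or `r ∈ verts t1`), so the dimension drops by at most `1`
(`Submodule.span_insert`-type bound, e.g. `finrank_span_insert_le`).
Case `r ≠ r'`: let `f = (span ℚ {r - r'}).mkQ : V → V / span {r - r'}`; `f r = f r'`. The walk
`mapw f t1 ++ mapw f t2`, balanced as before (apply `Multiset.map (Prod.map f f)` to `bplus t = bminus t`
(`bplus_mapw`), then cancel the pair `(f r, f u)`). Dimension: by `dimv_mapw_le` (`v = r - r'`)
`dimv t ≤ dimv (mapw f t) + 1`, and `verts (mapw f t) = verts (mapw f t1 ++ mapw f t2) ∪ {f r, f u, f r'}` where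
`f r = f r'` is `0` or an end point, and `f u ∈ verts (mapw f t1 ++ mapw f t2)`, because: if `e = true`, the pair
`(r,u) ∈ bplus t = bminus t`, so there is a step of `t` with letter `b⁻¹`, end `r`, start `u`; it is not `s` (letter
`b`) and it is not `s'` (its end is `r' ≠ r`), so it is in `t1` or `t2`, hence `u ∈ verts (t1 ++ t2)`. If
`e = false`: `(u, r) ∈ bminus t = bplus t`: a step `b` from `u` to `r`: not `s`, not `s'` (end `r'`). Same. -/
theorem Good_del_b {L1 L2 : List Letter} {e : Bool} {g : ℕ}
    (h : Good (L1 ++ ((1 : Fin 2), e) :: ((1 : Fin 2), !e) :: L2) g) : Good (L1 ++ L2) g := by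
  obtain ⟨V, i1, i2, t, hmap, hwalk, hbal, hdim⟩ := h
  obtain ⟨t1, t', rfl, ht1, ht'⟩ := List.map_eq_append_iff.1 hmap
  obtain ⟨s, t'', rfl, hs, ht''⟩ := List.map_eq_cons_iff.1 ht'
  obtain ⟨s', t2, rfl, hs', ht2⟩ := List.map_eq_cons_iff.1 ht''
  obtain ⟨r, hw1, hw'⟩ := Walk_append.1 hwalk
  obtain ⟨l, r0, u⟩ := s
  obtain ⟨l', u0, r'⟩ := s'
  obtain ⟨hr0, hok, hu0, hok', hw2⟩ := hw'
  simp only at hs hs' hr0 hu0 hw2
  subst hs hs' hr0 hu0
  have hnb : nb (L1 ++ ((1 : Fin 2), e) :: ((1 : Fin 2), !e) :: L2) = nb (L1 ++ L2) + 2 := by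
    simp only [nb, List.countP_append, List.countP_cons]
    simp
    ring
  -- reduction to the dimension
  have key : ∀ (W : Type) (_ : AddCommGroup W) (_ : Module ℚ W) (f : V →ₗ[ℚ] W),
      f r0 = f r' → dimv (t1 ++ (((1 : Fin 2), e), r0, u0) :: (((1 : Fin 2), !e), u0, r') :: t2) ≤
        dimv (mapw f t1 ++ mapw f t2) + 1 → Good (L1 ++ L2) g := by
    intro W _ _ f hf hd
    refine ⟨W, inferInstance, inferInstance, mapw f t1 ++ mapw f t2, ?_, ?_, ?_, ?_⟩
    · rw [List.map_append, mapw_fst, mapw_fst, ht1, ht2]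
    · refine Walk_append.2 ⟨f r0, ?_, ?_⟩
      · have := Walk.mapw f hw1
        rwa [map_zero] at this
      · have := Walk.mapw f hw2
        rwa [map_zero, ← hf] at this
    · exact L4_bal f e r0 u0 r' hf t1 t2 hbal
    · rw [hnb] at hdim
      omega
  have hr0 : ∀ (W : Type) (_ : AddCommGroup W) (_ : Module ℚ W) (f : V →ₗ[ℚ] W),
      f r0 ∈ Submodule.span ℚ (verts (mapw f t1 ++ mapw f t2)) := by
    intro W _ _ f
    rcases L4_end hw1 with h1 | h1
    · rw [h1, map_zero]
      exact Submodule.zero_mem _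
    · refine Submodule.subset_span ?_
      rw [verts_append, verts_mapw]
      exact Or.inl ⟨_, h1, rfl⟩
  by_cases hrr : r0 = r'
  · subst hrr
    refine key V i1 i2 LinearMap.id rfl ?_
    rw [← dimv_mapw_inj LinearMap.id (fun _ _ h => h)
      (t1 ++ (((1 : Fin 2), e), r0, u0) :: (((1 : Fin 2), !e), u0, r0) :: t2)]
    have hle : Submodule.span ℚ (verts (mapw LinearMap.id
        (t1 ++ (((1 : Fin 2), e), r0, u0) :: (((1 : Fin 2), !e), u0, r0) :: t2))) ≤
        Submodule.span ℚ (insert (u0 : V)
          (verts (mapw LinearMap.id t1 ++ mapw LinearMap.id t2))) := by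
      refine Submodule.span_le.2 ?_
      have hmono := Submodule.span_mono (R := ℚ) (Set.subset_insert (u0 : V)
          (verts (mapw LinearMap.id t1 ++ mapw LinearMap.id t2)))
      have hrm := hmono (hr0 V i1 i2 LinearMap.id)
      have hum : u0 ∈ Submodule.span ℚ (insert (u0 : V)
          (verts (mapw LinearMap.id t1 ++ mapw LinearMap.id t2))) :=
        Submodule.subset_span (Set.mem_insert _ _)
      rw [verts_mapw, verts_append, verts_cons, verts_cons]
      rintro _ ⟨x, hx, rfl⟩
      rcases hx with hx | (hx | hx) | (hx | hx) | hx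
      · refine hmono (Submodule.subset_span ?_)
        rw [verts_append, verts_mapw]
        exact Or.inl ⟨x, hx, rfl⟩
      · subst hx; exact hrm
      · rw [Set.mem_singleton_iff] at hx; subst hx; exact hum
      · subst hx; exact hum
      · rw [Set.mem_singleton_iff] at hx; subst hx; exact hrm
      · refine hmono (Submodule.subset_span ?_)
        rw [verts_append, verts_mapw, verts_mapw]
        exact Or.inr ⟨x, hx, rfl⟩
    have hfin : (verts (mapw (LinearMap.id : V →ₗ[ℚ] V) t1 ++
        mapw (LinearMap.id : V →ₗ[ℚ] V) t2)).Finite := verts_finite _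
    have : Module.Finite ℚ (Submodule.span ℚ (insert (u0 : V)
          (verts (mapw (LinearMap.id : V →ₗ[ℚ] V) t1 ++
            mapw (LinearMap.id : V →ₗ[ℚ] V) t2)))) :=
      Module.Finite.span_of_finite ℚ (hfin.insert u0)
    refine le_trans (Submodule.finrank_mono hle) ?_
    rw [Submodule.span_insert]
    have : Module.Finite ℚ (Submodule.span ℚ
          (verts (mapw (LinearMap.id : V →ₗ[ℚ] V) t1 ++
            mapw (LinearMap.id : V →ₗ[ℚ] V) t2))) :=
      Module.Finite.span_of_finite ℚ hfin
    refine le_trans (Submodule.finrank_add_le_finrank_add_finrank _ _) ?_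
    have h3 : Module.finrank ℚ (Submodule.span ℚ {(u0 : V)}) ≤ 1 := by
      have := finrank_span_le_card (R := ℚ) ({(u0 : V)} : Set V)
      simpa using this
    rw [add_comm]
    exact Nat.add_le_add le_rfl h3
  · set f := (Submodule.span ℚ {r0 - r'}).mkQ with hf
    have hfr : f r0 = f r' := by
      rw [← sub_eq_zero, ← map_sub, hf, Submodule.mkQ_apply, Submodule.Quotient.mk_eq_zero]
      exact Submodule.mem_span_singleton_self _
    refine key (V ⧸ Submodule.span ℚ {r0 - r'}) inferInstance inferInstance f hfr ?_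
    refine le_trans (dimv_mapw_le f (r0 - r') (by rw [hf, Submodule.ker_mkQ]) _) ?_
    refine Nat.add_le_add ?_ le_rfl
    have hle : Submodule.span ℚ (verts (mapw f
        (t1 ++ (((1 : Fin 2), e), r0, u0) :: (((1 : Fin 2), !e), u0, r') :: t2))) ≤
        Submodule.span ℚ (verts (mapw f t1 ++ mapw f t2)) := by
      refine Submodule.span_le.2 ?_
      have hrm := hr0 _ inferInstance inferInstance f
      have hum : f u0 ∈ Submodule.span ℚ (verts (mapw f t1 ++ mapw f t2)) := by
        refine Submodule.subset_span ?_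
        rw [verts_append, verts_mapw, verts_mapw]
        rcases L4_mem_u e r0 u0 r' hrr t1 t2 hbal with h4 | h4
        · exact Or.inl ⟨_, h4, rfl⟩
        · exact Or.inr ⟨_, h4, rfl⟩
      rw [verts_mapw, verts_append, verts_cons, verts_cons]
      rintro _ ⟨x, hx, rfl⟩
      rcases hx with hx | (hx | hx) | (hx | hx) | hx
      · refine Submodule.subset_span ?_
        rw [verts_append, verts_mapw]
        exact Or.inl ⟨x, hx, rfl⟩
      · subst hx; exact hrm
      · rw [Set.mem_singleton_iff] at hx; subst hx; exact hum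
      · subst hx; exact hum
      · rw [Set.mem_singleton_iff] at hx
        subst hx
        rw [hfr] at hrm
        exact hrm
      · refine Submodule.subset_span ?_
        rw [verts_append, verts_mapw, verts_mapw]
        exact Or.inr ⟨x, hx, rfl⟩
    have : Module.Finite ℚ (Submodule.span ℚ (verts (mapw f t1 ++ mapw f t2))) :=
      Module.Finite.span_of_finite ℚ (verts_finite _)
    exact Submodule.finrank_mono hle

end Pool.Agent.SC
end

section

set_option autoImplicit false
namespace Pool.Agent.SC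

private theorem L5_prod {V W : Type} [AddCommGroup V] [Module ℚ V] [AddCommGroup W] [Module ℚ W]
    (A : Set V) (B : Set W) (hA : A.Finite) (hB : B.Finite) :
    Module.finrank ℚ (Submodule.span ℚ A) + Module.finrank ℚ (Submodule.span ℚ B) =
      Module.finrank ℚ (Submodule.span ℚ ((LinearMap.inl ℚ V W) '' A ∪ (LinearMap.inr ℚ V W) '' B)) := by
  have : Module.Finite ℚ (Submodule.span ℚ A) := FiniteDimensional.span_of_finite ℚ hA
  have : Module.Finite ℚ (Submodule.span ℚ B) := FiniteDimensional.span_of_finite ℚ hB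
  rw [LinearMap.span_inl_union_inr, LinearMap.prod_eq_sup_map]
  have h1 := Submodule.finrank_sup_add_finrank_inf_eq
    ((Submodule.span ℚ A).map (LinearMap.inl ℚ V W)) ((Submodule.span ℚ B).map (LinearMap.inr ℚ V W))
  have h2 : ((Submodule.span ℚ A).map (LinearMap.inl ℚ V W)) ⊓
      ((Submodule.span ℚ B).map (LinearMap.inr ℚ V W)) = ⊥ := by
    rw [eq_bot_iff]
    rintro ⟨x, y⟩ ⟨hx, hy⟩
    obtain ⟨a, -, ha⟩ := hx
    obtain ⟨b, -, hb⟩ := hy
    simp only [LinearMap.inl_apply, LinearMap.inr_apply, Prod.mk.injEq] at ha hb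
    simp only [Submodule.mem_bot, Prod.mk_eq_zero]
    exact ⟨hb.1.symm, ha.2.symm⟩
  rw [h2, finrank_bot, add_zero] at h1
  rw [h1, ← LinearEquiv.finrank_eq (Submodule.equivMapOfInjective (LinearMap.inl ℚ V W)
    LinearMap.inl_injective (Submodule.span ℚ A)), ← LinearEquiv.finrank_eq (Submodule.equivMapOfInjective
    (LinearMap.inr ℚ V W) LinearMap.inr_injective (Submodule.span ℚ B))]

private theorem L5_mono {V : Type} [AddCommGroup V] [Module ℚ V] (A : Set V) (t : List (Letter × V × V))
    (h : A ⊆ verts t) : Module.finrank ℚ (Submodule.span ℚ A) ≤ dimv t := by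
  have : Module.Finite ℚ (Submodule.span ℚ (verts t)) :=
    FiniteDimensional.span_of_finite ℚ (verts_finite t)
  exact Submodule.finrank_mono (Submodule.span_mono h)


/-- Proof. Split the walk at `r` (`Walk_append`, `List.map_eq_append_iff`).
Generator `a` (`x = 0`): insert the steps `((0,e), r, u) :: ((0,!e), u, r)` with `u = 2 • r` (`e = true`) or
`u = (1/2) • r` (`e = false`): same balance, same `nb`, `verts` grows.
Generator `b` (`x = 1`): embed `V` in `V × ℚ` (`LinearMap.inl`), insert `((1,e), (r,0), (0,1)) :: ((1,!e), (0,1), (r,0))`: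
`bplus` and `bminus` get the same pair, `nb` grows by `2` and the dimension by `1` (the vector `(0,1)` is not in the
image of `inl`). -/
theorem Good_ins {L1 L2 : List Letter} {x : Fin 2} {e : Bool} {g : ℕ} (h : Good (L1 ++ L2) g) :
    Good (L1 ++ (x, e) :: (x, !e) :: L2) g := by
  obtain ⟨V, i1, i2, t, ht, hw, hb, hn⟩ := h
  obtain ⟨t1, t2, rfl, h1, h2⟩ := List.map_eq_append_iff.1 ht
  obtain ⟨r, hw1, hw2⟩ := Walk_append.1 hw
  subst h1 h2
  rw [bplus_append, bminus_append] at hb
  rw [nb_append] at hn
  have hx : x = 0 ∨ x = 1 := by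
    fin_cases x
    · left; rfl
    · right; rfl
  rcases hx with rfl | rfl
  · -- generator `a`
    have key : ∃ u : V, okStep (((0 : Fin 2), e), r, u) ∧ okStep (((0 : Fin 2), !e), u, r) := by
      cases e
      · refine ⟨(1 / 2 : ℚ) • r, ?_, ?_⟩
        · intro _
          simp [smul_smul]
        · intro _
          simp [smul_smul]
      · refine ⟨(2 : ℚ) • r, ?_, ?_⟩
        · intro _
          simp
        · intro _
          simp
    obtain ⟨u, hu1, hu2⟩ := key
    refine ⟨V, i1, i2, t1 ++ (((0 : Fin 2), e), r, u) :: (((0 : Fin 2), !e), u, r) :: t2, ?_, ?_, ?_, ?_⟩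
    · simp
    · exact Walk_append.2 ⟨r, hw1, rfl, hu1, rfl, hu2, hw2⟩
    · rw [bplus_append, bminus_append, bplus_cons, bplus_cons, bminus_cons, bminus_cons]
      simp only [Prod.mk.injEq, zero_ne_one, false_and, if_false, zero_add]
      exact hb
    · have e1 : nb (t1.map Prod.fst ++ ((0 : Fin 2), e) :: ((0 : Fin 2), !e) :: t2.map Prod.fst) =
          nb (t1.map Prod.fst) + nb (t2.map Prod.fst) := by
        rw [nb_append]
        simp [nb]
      rw [e1]
      have e2 : dimv (t1 ++ t2) ≤
          dimv (t1 ++ (((0 : Fin 2), e), r, u) :: (((0 : Fin 2), !e), u, r) :: t2) := by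
        apply L5_mono
        rw [verts_append, verts_append, verts_cons, verts_cons]
        intro v hv
        rcases hv with hv | hv
        · exact Or.inl hv
        · exact Or.inr (Or.inr (Or.inr hv))
      omega
  · -- generator `b`
    refine ⟨V × ℚ, inferInstance, inferInstance,
      mapw (LinearMap.inl ℚ V ℚ) t1 ++ (((1 : Fin 2), e), (r, (0 : ℚ)), ((0 : V), (1 : ℚ))) ::
        (((1 : Fin 2), !e), ((0 : V), (1 : ℚ)), (r, (0 : ℚ))) :: mapw (LinearMap.inl ℚ V ℚ) t2, ?_, ?_, ?_, ?_⟩
    · simp only [List.map_append, List.map_cons, mapw_fst]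
    · have w1 := Walk.mapw (LinearMap.inl ℚ V ℚ) hw1
      have w2 := Walk.mapw (LinearMap.inl ℚ V ℚ) hw2
      rw [map_zero] at w1 w2
      refine Walk_append.2 ⟨_, w1, rfl, ?_, rfl, ?_, w2⟩
      · intro h
        exact absurd h (by simp)
      · intro h
        exact absurd h (by simp)
    · rw [bplus_append, bminus_append, bplus_cons, bplus_cons, bminus_cons, bminus_cons,
        bplus_mapw, bplus_mapw, bminus_mapw, bminus_mapw]
      have hb' := congrArg (Multiset.map (Prod.map (LinearMap.inl ℚ V ℚ) (LinearMap.inl ℚ V ℚ))) hb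
      rw [Multiset.map_add, Multiset.map_add] at hb'
      cases e
      · simp only [Bool.not_false, Prod.mk.injEq, true_and, Bool.false_eq_true, if_false, if_true,
          reduceCtorEq, zero_add]
        rw [add_left_comm, hb', add_left_comm]
      · simp only [Bool.not_true, Prod.mk.injEq, true_and, Bool.true_eq_false, Bool.false_eq_true, if_false, if_true,
          zero_add]
        rw [add_left_comm, hb', add_left_comm]
    · have e1 : nb (t1.map Prod.fst ++ ((1 : Fin 2), e) :: ((1 : Fin 2), !e) :: t2.map Prod.fst) =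
          nb (t1.map Prod.fst) + nb (t2.map Prod.fst) + 2 := by
        rw [nb_append]
        simp [nb]
        ring
      rw [e1]
      have e2 : dimv (t1 ++ t2) + 1 ≤
          dimv (mapw (LinearMap.inl ℚ V ℚ) t1 ++ (((1 : Fin 2), e), (r, (0 : ℚ)), ((0 : V), (1 : ℚ))) ::
            (((1 : Fin 2), !e), ((0 : V), (1 : ℚ)), (r, (0 : ℚ))) :: mapw (LinearMap.inl ℚ V ℚ) t2) := by
        have f1 := L5_prod (verts (t1 ++ t2)) ({(1 : ℚ)} : Set ℚ) (verts_finite _) (Set.finite_singleton _)
        rw [finrank_span_singleton (one_ne_zero)] at f1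
        have f2 : dimv (t1 ++ t2) + 1 = _ := f1
        rw [f2]
        apply L5_mono
        rw [verts_append, verts_append, verts_cons, verts_cons, verts_mapw, verts_mapw]
        intro v hv
        rcases hv with ⟨w, hw | hw, rfl⟩ | ⟨w, hw, rfl⟩
        · exact Or.inl ⟨w, hw, rfl⟩
        · exact Or.inr (Or.inr (Or.inr ⟨w, hw, rfl⟩))
        · rw [Set.mem_singleton_iff] at hw
          subst hw
          exact Or.inr (Or.inl (Or.inr rfl))
      omega

/-- Proof. `V × W` with `LinearMap.inl`, `LinearMap.inr`, the walk `mapw inl t ++ mapw inr t'`. The span of the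
vertices contains `S × S'`, of dimension the sum (`Submodule.finrank_prod`-type or rank of a disjoint sup). -/
theorem Good_append {L L' : List Letter} {g g' : ℕ} (h : Good L g) (h' : Good L' g') :
    Good (L ++ L') (g + g') := by
  obtain ⟨V, i1, i2, t, ht, hw, hb, hn⟩ := h
  obtain ⟨W, j1, j2, t', ht', hw', hb', hn'⟩ := h'
  refine ⟨V × W, inferInstance, inferInstance,
    mapw (LinearMap.inl ℚ V W) t ++ mapw (LinearMap.inr ℚ V W) t', ?_, ?_, ?_, ?_⟩
  · rw [List.map_append, mapw_fst, mapw_fst, ht, ht']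
  · have w1 := Walk.mapw (LinearMap.inl ℚ V W) hw
    have w2 := Walk.mapw (LinearMap.inr ℚ V W) hw'
    rw [map_zero] at w1 w2
    exact Walk_append.2 ⟨0, w1, w2⟩
  · rw [bplus_append, bminus_append, bplus_mapw, bplus_mapw, bminus_mapw, bminus_mapw, hb, hb']
  · rw [nb_append]
    have e2 : dimv t + dimv t' ≤ dimv (mapw (LinearMap.inl ℚ V W) t ++ mapw (LinearMap.inr ℚ V W) t') := by
      have f1 := L5_prod (verts t) (verts t') (verts_finite _) (verts_finite _)
      have f2 : dimv t + dimv t' = _ := f1
      rw [f2]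
      apply L5_mono
      rw [verts_append, verts_mapw, verts_mapw]
    omega

theorem Good_nil : Good [] 0 := by
  refine ⟨ℚ, inferInstance, inferInstance, [], rfl, rfl, rfl, ?_⟩
  simp [nb]

end Pool.Agent.SC
end

section

set_option autoImplicit false
namespace Pool.Agent.SC

private theorem L6_fin {V : Type} [AddCommGroup V] [Module ℚ V] (t : List (Letter × V × V)) :
    FiniteDimensional ℚ (Submodule.span ℚ (verts t)) :=
  FiniteDimensional.span_of_finite ℚ (verts_finite t)

private theorem L6_mono {V : Type} [AddCommGroup V] [Module ℚ V] {t t' : List (Letter × V × V)}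
    (h : verts t ⊆ verts t') : dimv t ≤ dimv t' := by
  have := L6_fin t'
  exact Submodule.finrank_mono (Submodule.span_mono h)

private theorem L6_prod {V W : Type} [AddCommGroup V] [Module ℚ V] [AddCommGroup W] [Module ℚ W]
    (t : List (Letter × V × V)) (S' : Submodule ℚ W) [FiniteDimensional ℚ S']
    (T : List (Letter × (V × W) × (V × W)))
    (h1 : verts (mapw (LinearMap.inl ℚ V W) t) ⊆ verts T)
    (h2 : S'.map (LinearMap.inr ℚ V W) ≤ Submodule.span ℚ (verts T)) :
    dimv t + Module.finrank ℚ S' ≤ dimv T := by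
  have f0 := L6_fin t
  have fT := L6_fin T
  set S := Submodule.span ℚ (verts t) with hS
  have e1 : (S.map (LinearMap.inl ℚ V W)) ≤ Submodule.span ℚ (verts T) := by
    rw [hS, Submodule.map_span, ← verts_mapw]
    exact Submodule.span_mono h1
  have e2 : S.map (LinearMap.inl ℚ V W) ⊔ S'.map (LinearMap.inr ℚ V W) ≤
      Submodule.span ℚ (verts T) := sup_le e1 h2
  have e3 : S.map (LinearMap.inl ℚ V W) ⊓ S'.map (LinearMap.inr ℚ V W) = ⊥ := by
    rw [eq_bot_iff]
    rintro x ⟨hx1, hx2⟩
    obtain ⟨v, -, hv⟩ := hx1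
    obtain ⟨w, -, hw⟩ := hx2
    rw [Submodule.mem_bot]
    have h3 : LinearMap.inl ℚ V W v = LinearMap.inr ℚ V W w := by rw [hv, hw]
    have h4 := congrArg Prod.fst h3
    simp only [LinearMap.inl_apply, LinearMap.inr_apply] at h4
    rw [← hv, h4, map_zero]
  have e4 := Submodule.finrank_sup_add_finrank_inf_eq (S.map (LinearMap.inl ℚ V W))
    (S'.map (LinearMap.inr ℚ V W))
  have e6 : Module.finrank ℚ (S.map (LinearMap.inl ℚ V W)) = Module.finrank ℚ S :=
    (Submodule.equivMapOfInjective _ LinearMap.inl_injective S).finrank_eq.symm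
  have e7 : Module.finrank ℚ (S'.map (LinearMap.inr ℚ V W)) = Module.finrank ℚ S' :=
    (Submodule.equivMapOfInjective _ LinearMap.inr_injective S').finrank_eq.symm
  rw [e3, finrank_bot, add_zero, e6, e7] at e4
  have e5 := Submodule.finrank_mono e2
  rw [e4] at e5
  exact e5

/-- for every word `L` there is a walk from some `p` to `0` (not balanced) in some `V` whose vertices span dimension
`≥ nb L`. Proof: induction on `L` (from the right end). `[]`: `V = ℚ` or `Unit`, `p = 0`. Letter `a^{±1}` in front: the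
new start is `(1/2) p` resp. `2 p`. Letter `b^{±1}` in front: new space `V × ℚ`, new start `(0,1)`, step from `(0,1)` to
`(p,0)`: dimension `+ 1`. -/
theorem exists_walk_to_zero (L : List Letter) :
    ∃ (V : Type) (_ : AddCommGroup V) (_ : Module ℚ V) (t : List (Letter × V × V)) (p : V),
      t.map Prod.fst = L ∧ Walk p 0 t ∧ nb L ≤ dimv t := by
  induction L with
  | nil => exact ⟨ℚ, inferInstance, inferInstance, [], 0, rfl, rfl, Nat.zero_le _⟩
  | cons s L ih =>
    obtain ⟨V, i1, i2, t, p, ht, hw, hd⟩ := ih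
    obtain ⟨k, e⟩ := s
    have hk : k = 0 ∨ k = 1 := by omega
    rcases hk with rfl | rfl
    · have hnb : nb (((0 : Fin 2), e) :: L) = nb L := by
        unfold nb
        rw [List.countP_cons_of_neg]
        simp
      cases e with
      | true =>
        refine ⟨V, i1, i2, (((0 : Fin 2), true), (2 : ℚ)⁻¹ • p, p) :: t, (2 : ℚ)⁻¹ • p, ?_, ?_, ?_⟩
        · rw [List.map_cons, ht]
        · refine ⟨rfl, fun _ => ?_, hw⟩
          simp
        · rw [hnb]
          refine hd.trans (L6_mono ?_)
          rw [verts_cons]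
          exact Set.subset_union_right
      | false =>
        refine ⟨V, i1, i2, (((0 : Fin 2), false), (2 : ℚ) • p, p) :: t, (2 : ℚ) • p, ?_, ?_, ?_⟩
        · rw [List.map_cons, ht]
        · refine ⟨rfl, fun _ => ?_, hw⟩
          simp
        · rw [hnb]
          refine hd.trans (L6_mono ?_)
          rw [verts_cons]
          exact Set.subset_union_right
    · have hnb : nb (((1 : Fin 2), e) :: L) = nb L + 1 := by
        unfold nb
        rw [List.countP_cons_of_pos]
        simp
      refine ⟨V × ℚ, inferInstance, inferInstance,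
        (((1 : Fin 2), e), ((0 : V), (1 : ℚ)), (p, (0 : ℚ))) :: mapw (LinearMap.inl ℚ V ℚ) t,
        ((0 : V), (1 : ℚ)), ?_, ?_, ?_⟩
      · rw [List.map_cons, mapw_fst, ht]
      · refine ⟨rfl, fun h => ?_, ?_⟩
        · exact absurd h (by simp)
        · have h1 := Walk.mapw (LinearMap.inl ℚ V ℚ) hw
          rw [map_zero] at h1
          exact h1
      · rw [hnb]
        have h1 := L6_prod t (⊤ : Submodule ℚ ℚ)
          ((((1 : Fin 2), e), ((0 : V), (1 : ℚ)), (p, (0 : ℚ))) :: mapw (LinearMap.inl ℚ V ℚ) t)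
          (by rw [verts_cons]; exact Set.subset_union_right) ?_
        · have h2 : Module.finrank ℚ (⊤ : Submodule ℚ ℚ) = 1 := by
            rw [finrank_top]; exact Module.finrank_self ℚ
          rw [h2] at h1
          omega
        · rintro x ⟨y, -, rfl⟩
          have h3 : LinearMap.inr ℚ V ℚ y = y • ((0 : V), (1 : ℚ)) := by
            simp
          rw [h3]
          refine Submodule.smul_mem _ _ (Submodule.subset_span ?_)
          rw [verts_cons]
          left
          simp

/-- loop at `0`. Proof: quotient by the span of `p` (`dimv_mapw_le` with `v = p`). -/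
theorem exists_loop (L : List Letter) :
    ∃ (V : Type) (_ : AddCommGroup V) (_ : Module ℚ V) (t : List (Letter × V × V)),
      t.map Prod.fst = L ∧ Walk 0 0 t ∧ nb L ≤ dimv t + 1 := by
  obtain ⟨V, i1, i2, t, p, ht, hw, hd⟩ := exists_walk_to_zero L
  have h0 : (Submodule.span ℚ {p}).mkQ p = 0 := by
    rw [Submodule.mkQ_apply, Submodule.Quotient.mk_eq_zero]
    exact Submodule.mem_span_singleton_self p
  refine ⟨V ⧸ Submodule.span ℚ {p}, inferInstance, inferInstance,
    mapw (Submodule.span ℚ {p}).mkQ t, ?_, ?_, ?_⟩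
  · rw [mapw_fst, ht]
  · have h1 := Walk.mapw (Submodule.span ℚ {p}).mkQ hw
    rw [h0, map_zero] at h1
    exact h1
  · exact hd.trans (dimv_mapw_le _ p (by rw [Submodule.ker_mkQ]) t)

/-- commutators. Proof: take loops `t` for `x` in `V`, `t'` for `y` in `W` (`exists_loop`); in `V × W` the walk
`mapw inl t ++ mapw inr t' ++ revw (mapw inl t) ++ revw (mapw inr t')` is closed at `0`, balanced
(`bplus_revw`, `bminus_revw`), `nb = 2 (nb x + nb y)` and the dimension is `≥ dimv t + dimv t' ≥ nb x + nb y - 2`
(the span contains `S × S'`). So `nb ≤ 2 dimv + 4`. (`nb (invRev x) = nb x`.) -/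
theorem Good_comm (x y : List Letter) :
    Good (x ++ y ++ FreeGroup.invRev x ++ FreeGroup.invRev y) 1 := by
  obtain ⟨V, i1, i2, t, ht, hw, hd⟩ := exists_loop x
  obtain ⟨W, j1, j2, t', ht', hw', hd'⟩ := exists_loop y
  have hnb : ∀ L : List Letter, nb (FreeGroup.invRev L) = nb L := by
    intro L
    unfold nb FreeGroup.invRev
    rw [List.countP_reverse, List.countP_map]
    rfl
  have w1 : Walk (0 : V × W) 0 (mapw (LinearMap.inl ℚ V W) t) := by
    have h1 := Walk.mapw (LinearMap.inl ℚ V W) hw
    rwa [map_zero] at h1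
  have w2 : Walk (0 : V × W) 0 (mapw (LinearMap.inr ℚ V W) t') := by
    have h1 := Walk.mapw (LinearMap.inr ℚ V W) hw'
    rwa [map_zero] at h1
  refine ⟨V × W, inferInstance, inferInstance,
    mapw (LinearMap.inl ℚ V W) t ++ mapw (LinearMap.inr ℚ V W) t' ++
      revw (mapw (LinearMap.inl ℚ V W) t) ++ revw (mapw (LinearMap.inr ℚ V W) t'), ?_, ?_, ?_, ?_⟩
  · simp only [List.map_append, mapw_fst, revw_fst, ht, ht']
  · rw [Walk_append]
    refine ⟨0, ?_, Walk_revw w2⟩
    rw [Walk_append]
    refine ⟨0, ?_, Walk_revw w1⟩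
    rw [Walk_append]
    exact ⟨0, w1, w2⟩
  · rw [bplus_append, bplus_append, bplus_append, bminus_append, bminus_append, bminus_append,
      bplus_revw, bplus_revw, bminus_revw, bminus_revw]
    abel
  · have f' := L6_fin t'
    have h1 := L6_prod t (Submodule.span ℚ (verts t'))
      (mapw (LinearMap.inl ℚ V W) t ++ mapw (LinearMap.inr ℚ V W) t' ++
        revw (mapw (LinearMap.inl ℚ V W) t) ++ revw (mapw (LinearMap.inr ℚ V W) t')) ?_ ?_
    · have h2 : Module.finrank ℚ (Submodule.span ℚ (verts t')) = dimv t' := rfl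
      rw [h2] at h1
      rw [nb_append, nb_append, nb_append, hnb, hnb]
      omega
    · rw [verts_append, verts_append, verts_append]
      intro v hv
      exact Or.inl (Or.inl (Or.inl hv))
    · rw [Submodule.map_span, ← verts_mapw]
      refine Submodule.span_mono ?_
      rw [verts_append, verts_append, verts_append]
      intro v hv
      exact Or.inl (Or.inl (Or.inr hv))

end Pool.Agent.SC
end

section

set_option autoImplicit false
namespace Pool.Agent.SC

/-- Proof. `FreeGroup.Red.Step` has one constructor: delete `(x,e) :: (x,!e)`; `x = 0` or `x = 1`; `Good_del_a`,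
`Good_del_b`. -/
theorem Good_step {L L' : List Letter} (h : FreeGroup.Red.Step L L') {g : ℕ} (hg : Good L g) : Good L' g := by
  cases h with
  | @not L₁ L₂ x b =>
    have hx : x = 0 ∨ x = 1 := by
      fin_cases x
      · exact Or.inl rfl
      · exact Or.inr rfl
    rcases hx with rfl | rfl
    · exact Good_del_a hg
    · exact Good_del_b hg

theorem Good_step_inv {L L' : List Letter} (h : FreeGroup.Red.Step L L') {g : ℕ} (hg : Good L' g) :
    Good L g := by
  cases h with
  | not => exact Good_ins hg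

private theorem L7_red {L L' : List Letter} (h : FreeGroup.Red L L') {g : ℕ} :
    Good L g ↔ Good L' g := by
  induction h with
  | refl => exact Iff.rfl
  | tail _ hs ih => exact ih.trans ⟨Good_step hs, Good_step_inv hs⟩

/-- Proof. `FreeGroup.mk L = FreeGroup.mk L'` iff there is a common reduct (`FreeGroup.Red.exact`), and `Red` is the
reflexive transitive closure of `Step`. -/
theorem Good_of_eq {L L' : List Letter} (h : FreeGroup.mk L = FreeGroup.mk L') {g : ℕ} (hg : Good L g) :
    Good L' g := by
  obtain ⟨K, h1, h2⟩ := FreeGroup.Red.exact.1 h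
  exact (L7_red h2).2 ((L7_red h1).1 hg)

/-- **products of `g` commutators are good.** Proof. Induction on `g` with `PC_succ_iff`: `w = x y x⁻¹ y⁻¹ h`; by
induction `Good` for the word `toWord h`, by `Good_comm` for the word of the commutator of `toWord x`, `toWord y`,
`Good_append`, and `Good_of_eq` (`FreeGroup.mk_toWord`, `FreeGroup.inv_mk`, `FreeGroup.mul_mk`). -/
theorem Good_of_PC {g : ℕ} {w : F} (h : PC g w) (L : List Letter) (hL : FreeGroup.mk L = w) : Good L g := by
  induction g generalizing w L with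
  | zero =>
    rw [PC_zero_iff] at h
    subst h
    refine Good_of_eq (L := []) ?_ Good_nil
    rw [hL]
    rfl
  | succ g ih =>
    obtain ⟨x, y, k, hk, rfl⟩ := PC_succ_iff.1 h
    have h1 := ih hk k.toWord FreeGroup.mk_toWord
    have h2 := Good_append (Good_comm x.toWord y.toWord) h1
    rw [add_comm 1 g] at h2
    refine Good_of_eq ?_ h2
    rw [hL, ← FreeGroup.mul_mk, ← FreeGroup.mul_mk, ← FreeGroup.mul_mk, ← FreeGroup.mul_mk,
      ← FreeGroup.inv_mk, ← FreeGroup.inv_mk, FreeGroup.mk_toWord, FreeGroup.mk_toWord,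
      FreeGroup.mk_toWord]

end Pool.Agent.SC
end

section

set_option autoImplicit false
namespace Pool.Agent.SC

section
variable {V : Type} [AddCommGroup V] [Module ℚ V]

private theorem L8_bplus_nil : bplus ([] : List (Letter × V × V)) = 0 := rfl

private theorem L8_bminus_nil : bminus ([] : List (Letter × V × V)) = 0 := rfl

private theorem L8_verts_nil : verts ([] : List (Letter × V × V)) = ∅ := by
  ext v
  simp [verts]

private theorem L8_rep (b : Bool) (n : ℕ) : ∀ (p q : V) (t : List (Letter × V × V)),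
    t.map Prod.fst = List.replicate n ((0 : Fin 2), b) → Walk p q t →
    q = ((2 : ℚ) ^ (if b = true then (n : ℤ) else -(n : ℤ))) • p ∧ bplus t = 0 ∧ bminus t = 0 ∧
      verts t ⊆ (Submodule.span ℚ {p} : Set V) := by
  induction n with
  | zero =>
    intro p q t ht h
    have h0 : t = [] := by
      rw [List.replicate_zero, List.map_eq_nil_iff] at ht
      exact ht
    subst h0
    have h1 : p = q := h
    subst h1
    refine ⟨?_, rfl, rfl, ?_⟩
    · have e : (if b = true then ((0 : ℕ) : ℤ) else -((0 : ℕ) : ℤ)) = 0 := by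
        split_ifs <;> simp
      rw [e, zpow_zero, one_smul]
    · rw [L8_verts_nil]
      exact Set.empty_subset _
  | succ n ih =>
    intro p q t ht h
    rw [List.replicate_succ] at ht
    obtain ⟨s, t', rfl, hs, ht'⟩ := List.map_eq_cons_iff.mp ht
    obtain ⟨h1, h2, h3⟩ := h
    obtain ⟨h4, h5, h6, h7⟩ := ih s.2.2 q t' ht' h3
    have h8 : s.2.2 = ((2 : ℚ) ^ (if b = true then (1 : ℤ) else -1)) • p := by
      have h9 := h2 (by rw [hs])
      rw [hs] at h9
      simp only at h9
      by_cases hb : b = true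
      · rw [if_pos hb] at h9 ⊢
        rw [h9, h1, zpow_one]
      · rw [if_neg hb] at h9 ⊢
        rw [h1] at h9
        rw [h9, smul_smul]
        have : (2 : ℚ) ^ (-1 : ℤ) * 2 = 1 := by norm_num
        rw [this, one_smul]
    have hmem : s.2.2 ∈ Submodule.span ℚ {p} := by
      rw [h8]
      exact Submodule.smul_mem _ _ (Submodule.mem_span_singleton_self p)
    refine ⟨?_, ?_, ?_, ?_⟩
    · rw [h4, h8, smul_smul, ← zpow_add₀ (by norm_num : (2 : ℚ) ≠ 0)]
      congr 2
      split_ifs
      · push_cast
        ring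
      · push_cast
        ring
    · rw [bplus_cons, h5, add_zero, if_neg]
      rw [hs]
      simp
    · rw [bminus_cons, h6, add_zero, if_neg]
      rw [hs]
      simp
    · rw [verts_cons]
      apply Set.union_subset
      · intro v hv
        rcases hv with rfl | hv
        · rw [h1]
          exact Submodule.mem_span_singleton_self p
        · rw [Set.mem_singleton_iff] at hv
          rw [hv]
          exact hmem
      · refine h7.trans ?_
        intro v hv
        exact (Submodule.span_singleton_le_iff_mem _ _).mpr hmem hv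

/-- Proof. Induction on `x.natAbs` (the list is `replicate x.natAbs (0, decide (0 < x))`): every step multiplies by
`2` (`x > 0`) or by `1/2` (`x < 0`); `bplus t = bminus t = 0`; all vertices are multiples of `p`. -/
theorem walk_apow (x : ℤ) {p q : V} {t : List (Letter × V × V)} (ht : t.map Prod.fst = apow x)
    (h : Walk p q t) :
    q = ((2 : ℚ) ^ x) • p ∧ bplus t = 0 ∧ bminus t = 0 ∧
      verts t ⊆ (Submodule.span ℚ {p} : Set V) := by
  obtain ⟨h1, h2⟩ := L8_rep (decide (0 < x)) x.natAbs p q t ht h
  refine ⟨?_, h2⟩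
  have e : (if decide (0 < x) = true then (x.natAbs : ℤ) else -(x.natAbs : ℤ)) = x := by
    by_cases hx : 0 < x
    · rw [if_pos (decide_eq_true hx)]
      omega
    · rw [if_neg (by simpa using hx)]
      omega
  rw [e] at h1
  exact h1

/-- one block. Proof: `walk_apow` twice. `Y` is the vertex after `b`, `q` the vertex after `b⁻¹`. -/
theorem walk_block (xy : ℤ × ℤ) {p q : V} {t : List (Letter × V × V)} (ht : t.map Prod.fst = block xy)
    (h : Walk p q t) :
    ∃ Y : V, bplus t = {(((2 : ℚ) ^ xy.1) • p, Y)} ∧ bminus t = {(q, ((2 : ℚ) ^ xy.2) • Y)} ∧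
      verts t ⊆ (Submodule.span ℚ {p, Y, q} : Set V) := by
  unfold block at ht
  obtain ⟨t₁₂₃, t₄, rfl, ht₁₂₃, ht₄⟩ := List.map_eq_append_iff.mp ht
  obtain ⟨t₁₂, t₃, rfl, ht₁₂, ht₃⟩ := List.map_eq_append_iff.mp ht₁₂₃
  obtain ⟨t₁, t₂, rfl, ht₁, ht₂⟩ := List.map_eq_append_iff.mp ht₁₂
  obtain ⟨s₂, t₂', rfl, hs₂, ht₂'⟩ := List.map_eq_cons_iff.mp ht₂
  obtain ⟨s₄, t₄', rfl, hs₄, ht₄'⟩ := List.map_eq_cons_iff.mp ht₄
  rw [List.map_eq_nil_iff] at ht₂' ht₄'
  subst ht₂' ht₄'
  obtain ⟨r₃, h123, h4⟩ := Walk_append.mp h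
  obtain ⟨r₂, h12, h3⟩ := Walk_append.mp h123
  obtain ⟨r₁, h1, h2⟩ := Walk_append.mp h12
  obtain ⟨a1, a2, a3, a4⟩ := walk_apow xy.1 ht₁ h1
  obtain ⟨c1, c2, c3, c4⟩ := walk_apow xy.2 ht₃ h3
  obtain ⟨b1, _, b2⟩ := h2
  obtain ⟨d1, _, d2⟩ := h4
  have b3 : s₂.2.2 = r₂ := b2
  have d3 : s₄.2.2 = q := d2
  refine ⟨r₂, ?_, ?_, ?_⟩
  · rw [bplus_append, bplus_append, bplus_append, bplus_cons, bplus_cons, a2, c2, L8_bplus_nil,
      if_pos hs₂, if_neg (by rw [hs₄]; simp), b1, b3, a1]
    simp
  · rw [bminus_append, bminus_append, bminus_append, bminus_cons, bminus_cons, a3, c3,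
      L8_bminus_nil, if_neg (by rw [hs₂]; simp), if_pos hs₄, d1, d3, c1]
    simp
  · have hp : p ∈ Submodule.span ℚ {p, r₂, q} := Submodule.subset_span (by simp)
    have hY : r₂ ∈ Submodule.span ℚ {p, r₂, q} := Submodule.subset_span (by simp)
    have hq : q ∈ Submodule.span ℚ {p, r₂, q} := Submodule.subset_span (by simp)
    rw [verts_append, verts_append, verts_append, verts_cons, verts_cons, L8_verts_nil,
      Set.union_empty, Set.union_empty, b1, b3, d1, d3, a1, c1]
    apply Set.union_subset
    · apply Set.union_subset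
      · apply Set.union_subset
        · refine a4.trans ?_
          intro v hv
          exact (Submodule.span_singleton_le_iff_mem _ _).mpr hp hv
        · intro v hv
          rcases hv with rfl | hv
          · exact Submodule.smul_mem _ _ hp
          · rw [Set.mem_singleton_iff] at hv
            rw [hv]
            exact hY
      · refine c4.trans ?_
        intro v hv
        exact (Submodule.span_singleton_le_iff_mem _ _).mpr hY hv
    · intro v hv
      rcases hv with rfl | hv
      · exact Submodule.smul_mem _ _ hY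
      · rw [Set.mem_singleton_iff] at hv
        rw [hv]
        exact hq

/-- the whole word. `E` is the list of `(x_l, y_l, X_l, Y_l)`: `X_l` the vertex at the start of block `l`, `Y_l` the
vertex after the `b` of block `l`. Proof: induction on `D` with `walk_block`. In the statement about `bminus`, the
list of ends is `X_1, …, X_{L-1}, q`; we only record its two projections. -/
theorem walk_word (D : List (ℤ × ℤ)) {p q : V} {t : List (Letter × V × V)} (ht : t.map Prod.fst = word D)
    (h : Walk p q t) :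
    ∃ E : List ((ℤ × ℤ) × V × V), E.map Prod.fst = D ∧
      (bplus t).map Prod.fst = ((E.map (fun e => ((2 : ℚ) ^ e.1.1) • e.2.1) : List V) : Multiset V) ∧
      (bplus t).map Prod.snd = ((E.map (fun e => e.2.2) : List V) : Multiset V) ∧
      p ::ₘ (bminus t).map Prod.fst = q ::ₘ ((E.map (fun e => e.2.1) : List V) : Multiset V) ∧
      (bminus t).map Prod.snd = ((E.map (fun e => ((2 : ℚ) ^ e.1.2) • e.2.2) : List V) : Multiset V) ∧
      verts t ⊆ (Submodule.span ℚ ({p, q} ∪ {v | ∃ e ∈ E, v = e.2.1 ∨ v = e.2.2}) : Set V) := by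
  induction D generalizing p t with
  | nil =>
    have h0 : t = [] := by
      have : t.map Prod.fst = [] := by rw [ht]; rfl
      rwa [List.map_eq_nil_iff] at this
    subst h0
    have h1 : p = q := h
    subst h1
    refine ⟨[], rfl, rfl, rfl, rfl, rfl, ?_⟩
    rw [L8_verts_nil]
    exact Set.empty_subset _
  | cons xy D ih =>
    have hw : word (xy :: D) = block xy ++ word D := by simp [word]
    rw [hw] at ht
    obtain ⟨t₁, t₂, rfl, ht₁, ht₂⟩ := List.map_eq_append_iff.mp ht
    obtain ⟨r, h1, h2⟩ := Walk_append.mp h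
    obtain ⟨Y, a1, a2, a3⟩ := walk_block xy ht₁ h1
    obtain ⟨E, e1, e2, e3, e4, e5, e6⟩ := ih ht₂ h2
    refine ⟨(xy, p, Y) :: E, ?_, ?_, ?_, ?_, ?_, ?_⟩
    · rw [List.map_cons, e1]
    · rw [bplus_append, a1, Multiset.map_add, e2, List.map_cons, ← Multiset.cons_coe,
        Multiset.map_singleton, Multiset.singleton_add]
    · rw [bplus_append, a1, Multiset.map_add, e3, List.map_cons, ← Multiset.cons_coe,
        Multiset.map_singleton, Multiset.singleton_add]
    · rw [bminus_append, a2, Multiset.map_add, List.map_cons, ← Multiset.cons_coe,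
        Multiset.map_singleton, Multiset.singleton_add, e4, Multiset.cons_swap]
    · rw [bminus_append, a2, Multiset.map_add, e5, List.map_cons, ← Multiset.cons_coe,
        Multiset.map_singleton, Multiset.singleton_add]
    · set S : Set V := {p, q} ∪ {v | ∃ e ∈ (xy, p, Y) :: E, v = e.2.1 ∨ v = e.2.2} with hS
      have hp : p ∈ Submodule.span ℚ S := Submodule.subset_span (Or.inl (by simp))
      have hq : q ∈ Submodule.span ℚ S := Submodule.subset_span (Or.inl (by simp))
      have hY : Y ∈ Submodule.span ℚ S :=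
        Submodule.subset_span (Or.inr ⟨(xy, p, Y), by simp, Or.inr rfl⟩)
      have hE : ∀ e ∈ E, e.2.1 ∈ Submodule.span ℚ S ∧ e.2.2 ∈ Submodule.span ℚ S := by
        intro e he
        exact ⟨Submodule.subset_span (Or.inr ⟨e, List.mem_cons_of_mem _ he, Or.inl rfl⟩),
          Submodule.subset_span (Or.inr ⟨e, List.mem_cons_of_mem _ he, Or.inr rfl⟩)⟩
      have hr : r ∈ Submodule.span ℚ S := by
        have h3 : r ∈ r ::ₘ (bminus t₂).map Prod.fst := Multiset.mem_cons_self r _
        rw [e4, Multiset.mem_cons, Multiset.mem_coe, List.mem_map] at h3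
        rcases h3 with h3 | ⟨e, he, h3⟩
        · rw [h3]
          exact hq
        · rw [← h3]
          exact (hE e he).1
      rw [verts_append]
      apply Set.union_subset
      · refine a3.trans ?_
        have h4 : Submodule.span ℚ {p, Y, r} ≤ Submodule.span ℚ S := by
          rw [Submodule.span_le]
          rintro v (rfl | rfl | hv)
          · exact hp
          · exact hY
          · rw [Set.mem_singleton_iff] at hv
            rw [hv]
            exact hr
        exact h4
      · refine e6.trans ?_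
        have h4 : Submodule.span ℚ ({r, q} ∪ {v | ∃ e ∈ E, v = e.2.1 ∨ v = e.2.2})
            ≤ Submodule.span ℚ S := by
          rw [Submodule.span_le]
          rintro v ((rfl | hv) | ⟨e, he, rfl | rfl⟩)
          · exact hr
          · rw [Set.mem_singleton_iff] at hv
            rw [hv]
            exact hq
          · exact (hE e he).1
          · exact (hE e he).2
        exact h4

end

end Pool.Agent.SC
end

section

set_option autoImplicit false
namespace Pool.Agent.SC

private theorem L11_word_cons (d : ℤ × ℤ) (D : List (ℤ × ℤ)) : word (d :: D) = block d ++ word D := by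
  simp [word]

private theorem L11_nb_apow (x : ℤ) : nb (apow x) = 0 := by
  unfold nb apow
  rw [List.countP_replicate]
  simp

private theorem L11_mk_replicate (l : Letter) (n : ℕ) :
    FreeGroup.mk (List.replicate n l) = (FreeGroup.mk [l]) ^ n := by
  induction n with
  | zero => rfl
  | succ n ih =>
    rw [List.replicate_succ, pow_succ', ← ih, FreeGroup.mul_mk]
    rfl

private theorem L11_mk_apow (x : ℤ) : FreeGroup.mk (apow x) = A ^ x := by
  unfold apow
  rw [L11_mk_replicate]
  by_cases h : 0 < x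
  · have h1 : decide (0 < x) = true := by simp [h]
    rw [h1]
    have h2 : (FreeGroup.mk [((0 : Fin 2), true)] : F) = A := rfl
    rw [h2]
    have h3 : (x.natAbs : ℤ) = x := by omega
    rw [← zpow_natCast, h3]
  · have h1 : decide (0 < x) = false := by simp [h]
    rw [h1]
    have h2 : (FreeGroup.mk [((0 : Fin 2), false)] : F) = A⁻¹ := rfl
    rw [h2, inv_pow, ← zpow_natCast, ← zpow_neg]
    have h3 : -(x.natAbs : ℤ) = x := by omega
    rw [h3]

/-- `nb (word D) = 2 * D.length`. Proof: `nb (apow x) = 0`. -/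
theorem nb_word (D : List (ℤ × ℤ)) : nb (word D) = 2 * D.length := by
  induction D with
  | nil => simp [word, nb]
  | cons d D ih =>
    rw [L11_word_cons, nb_append, ih]
    have h1 : nb (block d) = 2 := by
      unfold block
      rw [nb_append, nb_append, nb_append, L11_nb_apow, L11_nb_apow]
      simp [nb]
    rw [h1, List.length_cons]
    ring

/-- Proof: `mk (apow x) = A^x`, `mk (block (x,y)) = A^x * (B * A^y * B⁻¹) = A^x * C^y`. -/
theorem mk_word (D : List (ℤ × ℤ)) : FreeGroup.mk (word D) = ev (facs D) := by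
  induction D with
  | nil => rfl
  | cons d D ih =>
    have h1 : facs (d :: D) = Sum.inl d.1 :: Sum.inr d.2 :: facs D := by simp [facs]
    have h2 : FreeGroup.mk (block d) = A ^ d.1 * C ^ d.2 := by
      unfold block
      rw [← FreeGroup.mul_mk, ← FreeGroup.mul_mk, ← FreeGroup.mul_mk, L11_mk_apow, L11_mk_apow, C,
        conj_zpow]
      have h3 : (FreeGroup.mk [((1 : Fin 2), true)] : F) = B := rfl
      have h4 : (FreeGroup.mk [((1 : Fin 2), false)] : F) = B⁻¹ := rfl
      rw [h3, h4]
      group
    rw [L11_word_cons, ← FreeGroup.mul_mk, ih, h1, ev_inl, ev_inr, h2, mul_assoc]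

/-- **lower bound.** Proof: `Good_of_PC` gives a balanced closed walk at `0` reading `word D` with
`2 * D.length ≤ 2 * dimv t + 4 * g`. By `walk_word` (`p = q = 0`) and `bplus t = bminus t`, the multisets
`{2^x X}` and `{X}` agree (the extra `0` on both sides cancels), so all `X = 0` (`X_zero`), and `{Y} = {2^y Y}`, so
`dim_bound` bounds the dimension of the span of the `Y`, which contains all vertices. -/
theorem lower (D : List (ℤ × ℤ)) (Q : ℤ) (hQ : 0 < Q) (hx : ∀ d ∈ D, d.1 < 0) (hy : ∀ d ∈ D, d.2 ≠ 0)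
    (hyQ : ∀ d ∈ D, 0 < d.2 → d.2 = Q) {g : ℕ} (h : PC g (ev (facs D))) :
    Q * (D.length : ℤ) ≤ (D.map (fun d => max (-d.2) 0)).sum + 2 * Q * g := by
  obtain ⟨V, i1, i2, t, ht, hw, hbal, hnb⟩ := Good_of_PC h (word D) (mk_word D)
  rw [nb_word] at hnb
  obtain ⟨E, hED, hb1, hb2, hm1, hm2, hv⟩ := walk_word D ht hw
  rw [Multiset.cons_inj_right, ← hbal, hb1] at hm1
  rw [← hbal, hb2] at hm2
  have hX : ∀ e ∈ E, e.2.1 = 0 := by
    have h1 := X_zero (E.map (fun e => (e.1.1, e.2.1))) (by
      intro e he
      obtain ⟨e', he', rfl⟩ := List.mem_map.1 he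
      exact hx e'.1 (by rw [← hED]; exact List.mem_map.2 ⟨e', he', rfl⟩)) (by
      rw [List.map_map, List.map_map]
      exact hm1)
    intro e he
    exact h1 (e.1.1, e.2.1) (List.mem_map.2 ⟨e, he, rfl⟩)
  have hdim := dim_bound (E.map (fun e => (e.1.2, e.2.2))) Q hQ (by
      intro e he
      obtain ⟨e', he', rfl⟩ := List.mem_map.1 he
      exact hy e'.1 (by rw [← hED]; exact List.mem_map.2 ⟨e', he', rfl⟩)) (by
      intro e he
      obtain ⟨e', he', rfl⟩ := List.mem_map.1 he
      exact hyQ e'.1 (by rw [← hED]; exact List.mem_map.2 ⟨e', he', rfl⟩)) (by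
      rw [List.map_map, List.map_map]
      exact hm2.symm)
  have hsum : ((E.map (fun e => (e.1.2, e.2.2))).map (fun e : ℤ × V => max (-e.1) 0)).sum =
      (D.map (fun d => max (-d.2) 0)).sum := by
    rw [← hED, List.map_map, List.map_map]
    rfl
  rw [hsum] at hdim
  have hfin : {v | ∃ e ∈ E.map (fun e => (e.1.2, e.2.2)), v = e.2}.Finite := by
    have h1 : {v | ∃ e ∈ E.map (fun e => (e.1.2, e.2.2)), v = e.2} ⊆
        {v | v ∈ (E.map (fun e => (e.1.2, e.2.2))).map Prod.snd} := by
      rintro v ⟨e, he, rfl⟩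
      exact List.mem_map.2 ⟨e, he, rfl⟩
    exact (List.finite_toSet _).subset h1
  have hfd := FiniteDimensional.span_of_finite ℚ hfin
  have hle : dimv t ≤ Module.finrank ℚ
      (Submodule.span ℚ {v | ∃ e ∈ E.map (fun e => (e.1.2, e.2.2)), v = e.2}) := by
    apply Submodule.finrank_mono
    rw [Submodule.span_le]
    intro v hvt
    have h1 := hv hvt
    refine (Submodule.span_le.2 ?_ : Submodule.span ℚ _ ≤ _) h1
    rintro w (hw1 | ⟨e, he, hw1 | hw1⟩)
    · have h2 : w = 0 := by
        rcases hw1 with h | h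
        · exact h
        · exact h
      rw [h2]
      exact Submodule.zero_mem _
    · rw [hw1, hX e he]
      exact Submodule.zero_mem _
    · exact Submodule.subset_span ⟨(e.1.2, e.2.2), List.mem_map.2 ⟨e, he, rfl⟩, hw1⟩
  have h3 : (D.length : ℤ) ≤ (Module.finrank ℚ
      (Submodule.span ℚ {v | ∃ e ∈ E.map (fun e => (e.1.2, e.2.2)), v = e.2}) : ℤ) + 2 * g := by
    have h4 : D.length ≤ dimv t + 2 * g := by omega
    have h5 : D.length ≤ Module.finrank ℚ
      (Submodule.span ℚ {v | ∃ e ∈ E.map (fun e => (e.1.2, e.2.2)), v = e.2}) + 2 * g := by omega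
    exact_mod_cast h5
  nlinarith

end Pool.Agent.SC
end

section

set_option autoImplicit false
namespace Pool.Agent.SC

/-- Proof: `Q = 1`, `c = 0`, `N = 1`, `G = 0`. -/
theorem Rep_zero : Rep 0 0 := by
  refine ⟨1, 0, 1, 0, one_pos, one_pos, ?_, ?_, ?_, ?_, ?_⟩ <;> simp

/-- Proof: given `(Q1, c1, N1, G1)` and `(Q2, c2, N2, G2)` take `Q = Q1 Q2`, `c = c1.map (* Q2) + c2.map (* Q1)`,
`N = N1 N2`, `G = N2 • G1.map (map (* Q2)) + N1 • G2.map (map (* Q1))`. -/
theorem Rep_add {ρ σ : ℚ} {l m : ℕ} (h1 : Rep ρ l) (h2 : Rep σ m) : Rep (ρ + σ) (l + m) := by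
  obtain ⟨Q1, c1, N1, G1, hQ1, hN1, hp1, hc1, hs1, hG1, hg1⟩ := h1
  obtain ⟨Q2, c2, N2, G2, hQ2, hN2, hp2, hc2, hs2, hG2, hg2⟩ := h2
  have msum : ∀ (q : ℕ) (g : Multiset ℕ), (g.map (· * q)).sum = g.sum * q := by
    intro q g
    rw [Multiset.sum_map_mul_right, Multiset.map_id']
  have gsum : ∀ (q : ℕ) (G : Multiset (Multiset ℕ)),
      (G.map (Multiset.map (· * q))).sum = G.sum.map (· * q) := by
    intro q G
    induction G using Multiset.induction_on with
    | empty => simp
    | cons a s ih => simp [ih]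
  have nsm : ∀ (n : ℕ) (q : ℕ) (c : Multiset ℕ), (n • c).map (· * q) = n • c.map (· * q) := by
    intro n q c
    exact Multiset.map_nsmul _ n c
  refine ⟨Q1 * Q2, c1.map (· * Q2) + c2.map (· * Q1), N1 * N2,
    N2 • G1.map (Multiset.map (· * Q2)) + N1 • G2.map (Multiset.map (· * Q1)),
    Nat.mul_pos hQ1 hQ2, Nat.mul_pos hN1 hN2, ?_, ?_, ?_, ?_, ?_⟩
  · intro x hx
    rcases Multiset.mem_add.1 hx with hx | hx
    · obtain ⟨y, hy, rfl⟩ := Multiset.mem_map.1 hx
      exact Nat.mul_pos (hp1 y hy) hQ2
    · obtain ⟨y, hy, rfl⟩ := Multiset.mem_map.1 hx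
      exact Nat.mul_pos (hp2 y hy) hQ1
  · simp [hc1, hc2]
  · rw [Multiset.sum_add, msum, msum]
    rw [Nat.cast_add, Nat.cast_mul, Nat.cast_mul, hs1, hs2]
    push_cast
    ring
  · rw [Multiset.sum_add, Multiset.sum_nsmul, Multiset.sum_nsmul, gsum, gsum, hG1, hG2, nsm, nsm,
      smul_add, smul_smul, smul_smul, mul_comm N2 N1]
  · intro g hg
    rcases Multiset.mem_add.1 hg with hg | hg
    · have hg' := Multiset.mem_of_mem_nsmul hg
      obtain ⟨y, hy, rfl⟩ := Multiset.mem_map.1 hg'
      obtain ⟨e1, e2⟩ := hg1 y hy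
      exact ⟨by rw [msum, e1], by simpa using e2⟩
    · have hg' := Multiset.mem_of_mem_nsmul hg
      obtain ⟨y, hy, rfl⟩ := Multiset.mem_map.1 hg'
      obtain ⟨e1, e2⟩ := hg2 y hy
      exact ⟨by rw [msum, e1, mul_comm], by simpa using e2⟩

/-- Proof: `Q = m`, `c = {1}`, `N = m`, `G = {replicate m 1}`. -/
theorem Rep_unit {m : ℕ} (hm : 0 < m) (he : Even m) : Rep (1 / (m : ℚ)) 1 := by
  refine ⟨m, {1}, m, {Multiset.replicate m 1}, hm, hm, ?_, ?_, ?_, ?_, ?_⟩
  · simp
  · simp
  · have : (m : ℚ) ≠ 0 := by positivity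
    simp [this]
  · simp [Multiset.nsmul_singleton]
  · intro g hg
    rw [Multiset.mem_singleton] at hg
    subst hg
    exact ⟨by simp, by simpa using he⟩

/-- Proof: `Q = A`, `c = {1, p - 1}` (`p ≥ 2`, `p` even). Let `d = p - 1` (odd), `t = A / d`, `s = A % d`,
`A = d t + s`, `s ≤ d - 1 ≤ t` by `hA` (`t ≥ d - 1` since `A ≥ d (d - 1)`). `t > 0`. Take `N = t * A` and
`G = A • {replicate t d + replicate s 1} + (t - s) • {replicate A 1}`: the first kind has sum `d t + s = A` and size
`t + s ≡ d t + s = A ≡ 0` mod 2, the second has sum `A` and size `A`. Number of `d`'s: `A t = N`. Number of `1`'s: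
`A s + (t - s) A = t A = N`. -/
theorem Rep_pair {p A : ℕ} (hp : 2 ≤ p) (hpe : Even p) (hAe : Even A) (hA0 : 0 < A)
    (hA : (p - 1) * (p - 2) ≤ A) (hpA : p ≤ A) : Rep ((p : ℚ) / A) 2 := by
  obtain ⟨d, rfl⟩ : ∃ d, p = d + 1 := ⟨p - 1, by omega⟩
  have hd1 : 1 ≤ d := by omega
  have hA' : d * (d - 1) ≤ A := by
    have e1 : d + 1 - 1 = d := by omega
    have e2 : d + 1 - 2 = d - 1 := by omega
    rwa [e1, e2] at hA
  have hds : d * (A / d) + A % d = A := Nat.div_add_mod A d
  have hs : A % d < d := Nat.mod_lt _ hd1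
  have ht : d - 1 ≤ A / d := by
    rw [Nat.le_div_iff_mul_le hd1, mul_comm]; exact hA'
  set t := A / d with htdef
  set s := A % d with hsdef
  have hst : s ≤ t := by omega
  have htpos : 0 < t := Nat.div_pos (by omega) hd1
  have hdodd : Odd d := by
    rcases Nat.even_or_odd d with h | h
    · exfalso
      have := h.add_one
      exact (Nat.not_even_iff_odd.2 this) hpe
    · exact h
  refine ⟨A, {1, d}, t * A, A • {Multiset.replicate t d + Multiset.replicate s 1} +
    (t - s) • {Multiset.replicate A 1}, hA0, Nat.mul_pos htpos hA0, ?_, ?_, ?_, ?_, ?_⟩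
  · intro x hx
    simp only [Multiset.insert_eq_cons, Multiset.mem_cons, Multiset.mem_singleton] at hx
    omega
  · simp
  · have : (A : ℚ) ≠ 0 := by positivity
    simp only [Multiset.insert_eq_cons, Multiset.sum_cons, Multiset.sum_singleton]
    push_cast
    field_simp
    ring
  · rw [Multiset.sum_add, Multiset.sum_nsmul, Multiset.sum_nsmul, Multiset.sum_singleton,
      Multiset.sum_singleton]
    ext x
    simp only [Multiset.count_add, Multiset.count_nsmul, Multiset.insert_eq_cons,
      Multiset.count_cons, Multiset.count_singleton, Multiset.count_replicate]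
    by_cases h1 : x = 1
    · by_cases h2 : x = d
      · have hd : d = 1 := by omega
        subst h1
        simp [hd]
        have : s = 0 := by omega
        rw [this]; simp; ring
      · have h1' : 1 = x := h1.symm
        have h2' : ¬ d = x := fun h => h2 h.symm
        simp only [if_pos h1, if_pos h1', if_neg h2, if_neg h2', zero_add]
        zify [hst]
        ring
    · by_cases h2 : x = d
      · have h2' : d = x := h2.symm
        have h1' : ¬ 1 = x := fun h => h1 h.symm
        simp only [if_neg h1, if_neg h1', if_pos h2, if_pos h2', add_zero, mul_zero, mul_one]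
        ring
      · have h2' : ¬ d = x := fun h => h2 h.symm
        have h1' : ¬ 1 = x := fun h => h1 h.symm
        simp [if_neg h1, if_neg h1', if_neg h2, if_neg h2']
  · intro g hg
    rcases Multiset.mem_add.1 hg with hg | hg
    · have hg' := Multiset.mem_of_mem_nsmul hg
      rw [Multiset.mem_singleton] at hg'
      subst hg'
      refine ⟨?_, ?_⟩
      · rw [Multiset.sum_add, Multiset.sum_replicate, Multiset.sum_replicate]
        simp only [smul_eq_mul, mul_one]
        rw [mul_comm]; exact hds
      · rw [Multiset.card_add, Multiset.card_replicate, Multiset.card_replicate]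
        have h3 : Even (d * t + s) := by rw [hds]; exact hAe
        rw [Nat.even_add, Nat.even_mul] at h3
        rw [Nat.even_add]
        have h4 : ¬ Even d := Nat.not_even_iff_odd.2 hdodd
        simpa [h4] using h3
    · have hg' := Multiset.mem_of_mem_nsmul hg
      rw [Multiset.mem_singleton] at hg'
      subst hg'
      exact ⟨by simp, by simpa using hAe⟩

end Pool.Agent.SC
end

section

set_option autoImplicit false
namespace Pool.Agent.SC

theorem U1_pure (l : List (ℤ ⊕ ℤ)) (h : ys l = []) : ev l = A ^ (xs l).sum := by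
  induction l with
  | nil => simp
  | cons s l ih =>
    cases s with
    | inl x =>
      rw [ys_inl] at h
      rw [ev_inl, xs_inl, List.sum_cons, zpow_add, ih h]
    | inr y =>
      rw [ys_inr] at h
      simp at h

theorem U1_split (l : List (ℤ ⊕ ℤ)) (y : ℤ) (h : y ∈ ys l) :
    ∃ u v, l = u ++ Sum.inr y :: v := by
  unfold ys at h
  rw [List.mem_filterMap] at h
  obtain ⟨a, ha, hy⟩ := h
  cases a with
  | inl x => simp at hy
  | inr z =>
    simp only [Sum.getRight?_inr, Option.some.injEq] at hy
    subst hy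
    exact List.append_of_mem ha

theorem U1_ms {u v : List (ℤ ⊕ ℤ)} {y : ℤ} {M : Multiset ℤ}
    (h : ((ys (u ++ Sum.inr y :: v) : List ℤ) : Multiset ℤ) = y ::ₘ M) :
    ((ys u : List ℤ) : Multiset ℤ) + ((ys v : List ℤ) : Multiset ℤ) = M := by
  rw [ys_append, ys_inr, ← Multiset.coe_add, ← Multiset.cons_coe, Multiset.add_cons,
    Multiset.cons_inj_right] at h
  exact h

theorem U1_mem {l : List (ℤ ⊕ ℤ)} {y : ℤ} {M : Multiset ℤ}
    (h : ((ys l : List ℤ) : Multiset ℤ) = y ::ₘ M) : y ∈ ys l := by
  rw [← Multiset.mem_coe, h]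
  exact Multiset.mem_cons_self y M


/-- Proof. If `ys l = []` then `ev l = A ^ (xs l).sum` (induction on `l`: `cases` on the head; a head `inr` is
impossible), here `A ^ 0 = 1`; then `PC_zero`. -/
theorem H_zero : H 0 0 0 := by
  intro l h1 h2
  rw [Multiset.coe_eq_zero] at h1
  rw [U1_pure l h1, h2, zpow_zero]
  exact PC_zero

/-- Proof. Write `l = u ++ [inr y] ++ v` with `ys u = ys v = []` (from `↑(ys l) = {y}`, so `ys l = [y]`), so
`ev l = A^p * C^y * A^q` with `p + q = -y`. By `PC_rotate` it is enough that `A^q * A^p * C^y = A^(-y) * (B * A^y * B⁻¹)`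
is a commutator: `= x * y' * x⁻¹ * y'⁻¹` with `x = A^(-y)`, `y' = B` (use `C ^ y = B * A ^ y * B⁻¹`, `conj_zpow`). -/
theorem H_single (y : ℤ) : H {y} (-y) 1 := by
  intro l h1 h2
  have h1' : ((ys l : List ℤ) : Multiset ℤ) = y ::ₘ 0 := h1
  obtain ⟨u, v, rfl⟩ := U1_split l y (U1_mem h1')
  have h3 := U1_ms h1'
  rw [add_eq_zero_iff_of_nonneg (Multiset.zero_le _) (Multiset.zero_le _), Multiset.coe_eq_zero,
    Multiset.coe_eq_zero] at h3
  rw [xs_append, xs_inr, List.sum_append] at h2
  rw [ev_append, ev_inr, U1_pure u h3.1, U1_pure v h3.2]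
  apply PC_rotate
  rw [mul_assoc, ← zpow_add, add_comm (xs v).sum, h2]
  have h4 : C ^ y = B * A ^ y * B⁻¹ := by
    unfold C
    rw [conj_zpow]
  rw [h4, zpow_neg]
  exact PC_comm B (A ^ y)

/-- Proof. Given `l` with `ys l = 0 ::ₘ M` as a multiset, `0 ∈ ys l`, so `inr 0 ∈ l` and `l = u ++ inr 0 :: v`
(`List.append_of_mem`, membership in `filterMap`). Apply the hypothesis to `u ++ v`: `ys` loses one `0`, `xs` is the
same, `ev` is the same because `C ^ 0 = 1`. -/
theorem H_cons_zero {M : Multiset ℤ} {X : ℤ} {m : ℕ} (h : H M X m) : H (0 ::ₘ M) X m := by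
  intro l h1 h2
  obtain ⟨u, v, rfl⟩ := U1_split l 0 (U1_mem h1)
  have h3 := U1_ms h1
  rw [xs_append, xs_inr, ← xs_append] at h2
  rw [ev_append, ev_inr, zpow_zero, one_mul, ← ev_append]
  refine h (u ++ v) ?_ h2
  rw [ys_append, ← Multiset.coe_add]
  exact h3

/-- Proof. Apply the hypothesis to `inr 0 :: l`. -/
theorem H_drop_zero {M : Multiset ℤ} {X : ℤ} {m : ℕ} (h : H (0 ::ₘ M) X m) : H M X m := by
  intro l h1 h2
  have h3 := h (Sum.inr 0 :: l) (by rw [ys_inr, ← Multiset.cons_coe, h1]) (by rw [xs_inr]; exact h2)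
  rwa [ev_inr, zpow_zero, one_mul] at h3

/-- rotation: it is enough to treat lists starting with the entry `inr y`.
Proof. Given `l`, write `l = u ++ inr y :: v` (`y ∈ ys l`); then apply `h` to `v ++ u`:
`ev (inr y :: (v ++ u)) = (C^y * ev v) * ev u` and `PC_rotate`. -/
theorem H_of_head {M : Multiset ℤ} {X : ℤ} {m : ℕ} (y : ℤ)
    (h : ∀ l : List (ℤ ⊕ ℤ), ((ys l : List ℤ) : Multiset ℤ) = M → (xs l).sum = X →
      PC m (C ^ y * ev l)) : H (y ::ₘ M) X m := by
  intro l h1 h2
  obtain ⟨u, v, rfl⟩ := U1_split l y (U1_mem h1)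
  have h3 := U1_ms h1
  rw [xs_append, xs_inr, List.sum_append] at h2
  have h4 := h (v ++ u) (by rw [ys_append, ← Multiset.coe_add, add_comm]; exact h3)
    (by rw [xs_append, List.sum_append, add_comm]; exact h2)
  rw [ev_append, ← mul_assoc] at h4
  rw [ev_append, ev_inr]
  exact PC_rotate h4

end Pool.Agent.SC
end
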