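import Pool.Agent.Lib.MP_53e617_al.Mg.G001

section

set_option autoImplicit false
namespace Pool.Agent.SC

/-- `T 0 = 1`, `T 1 = 2`, `T 2 = 4`, `T 3 = 12`, `T 4 = 84`, `T 5 = 3612`, ... -/
def T : ℕ → ℕ
  | 0 => 1
  | 1 => 2
  | (n + 2) => T (n + 1) * (T (n + 1) + 2) / 2

/-- Proof: induction; `T (n+1)` is even (in fact `T (n+1) ≡ 0 mod 2`: `2`, `4`, and if `4 ∣ T` then
`T (T+2)/2` is `≡ 0 mod 4`: `T = 4 u`: `4u (4u+2)/2 = 4u(2u+1)`). -/
theorem T_even (n : ℕ) : Even (T (n + 1)) := by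
  have h4 : ∀ n : ℕ, ∃ u, T (n + 2) = 4 * u := by
    intro n
    induction n with
    | zero => exact ⟨1, by decide⟩
    | succ n ih =>
      obtain ⟨u, hu⟩ := ih
      refine ⟨u * (2 * u + 1), ?_⟩
      show T (n + 2) * (T (n + 2) + 2) / 2 = _
      rw [hu]
      apply Nat.div_eq_of_eq_mul_left (by norm_num)
      ring
  rcases n with _ | n
  · decide
  · obtain ⟨u, hu⟩ := h4 n
    rw [hu]
    exact ⟨2 * u, by ring⟩

/-- Proof: prove by induction `(T (n+1) + 1) * 1 ≥ ...`; suggestion: show `2^(2^j + j + 6) ≤ 2 * T (j + 4)` hmm; any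
proof is fine. From `T (n+2) ≥ T (n+1)^2 / 2` and `T 4 = 84`: let `S n = T n / 2`, then `S (n+1) ≥ S n ^ 2` and
`S 4 = 42 > 2^5`, so `S (j+4) ≥ 42^(2^j) ≥ 2^(5 * 2^j)`, and `5 * 2^j ≥ 2^j + j + 4` (as `4 * 2^j ≥ j + 4`). Hence
`T (j+4) ≥ 2^(2^j + j + 5)`. -/
theorem T_large (j : ℕ) : 2 ^ (j + 5) * 2 ^ (2 ^ j) ≤ T (j + 4) := by
  have h1 : ∀ j : ℕ, 2 * 2 ^ (5 * 2 ^ j) ≤ T (j + 4) := by
    intro j
    induction j with
    | zero => decide
    | succ j ih =>
      show _ ≤ T (j + 3 + 1) * (T (j + 3 + 1) + 2) / 2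
      have e : T (j + 3 + 1) = T (j + 4) := rfl
      rw [e, Nat.le_div_iff_mul_le (by norm_num)]
      have e2 : 2 * 2 ^ (5 * 2 ^ (j + 1)) * 2 = (2 * 2 ^ (5 * 2 ^ j)) * (2 * 2 ^ (5 * 2 ^ j)) := by
        have : 5 * 2 ^ (j + 1) = 5 * 2 ^ j + 5 * 2 ^ j := by ring
        rw [this, pow_add]; ring
      rw [e2]
      exact Nat.mul_le_mul ih (le_trans ih (Nat.le_add_right _ _))
  refine le_trans ?_ (h1 j)
  rw [← pow_add, ← pow_succ']
  apply Nat.pow_le_pow_right (by norm_num)
  have : j < 2 ^ j := Nat.lt_two_pow_self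
  omega

/-- one greedy step. Proof: let `m` be the least even natural number with `n ≤ s * m` (i.e. `1/m ≤ s/n`), `m ≥ 2`.
Put `s' = s m - n`, `n' = n m`: `s/n = 1/m + s'/n'`. By minimality `s (m-2) < n` (if `m ≥ 4`; if `m = 2` it is trivial
as `0 < n`), so `s' = s m - n < 2 s`. For `i = 0` (`s < n`): `s'/n' < 1/2`: if `m = 2`: `s/n - 1/2 < 1/2`. If `m ≥ 4`:
`s/n - 1/m < 1/(m-2) - 1/m = 2/(m (m-2)) ≤ 1/4`. For `i ≥ 1`: from `s * T i < n` and `n ≤ s m` we get `m > T i`, both
even, so `m ≥ T i + 2`, and `s'/n' < 1/(m-2) - 1/m = 2/(m (m-2)) ≤ 2/((T i + 2) (T i)) = 1/T (i+1)`. -/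
theorem greedy_step (i s n : ℕ) (hs : 0 < s) (hn : s * T i < n) :
    ∃ m s' : ℕ, 0 < m ∧ Even m ∧ s' < 2 * s ∧ s' * T (i + 1) < n * m ∧
      (s : ℚ) / n = 1 / (m : ℚ) + (s' : ℚ) / ((n * m : ℕ) : ℚ) := by
  have hn0 : 0 < n := lt_of_le_of_lt (Nat.zero_le _) hn
  -- least `k` with `n ≤ s * (2 * k)`
  have hex : ∃ k : ℕ, n ≤ s * (2 * k) := ⟨n, by nlinarith⟩
  classical
  set k := Nat.find hex with hk
  have hk1 : n ≤ s * (2 * k) := Nat.find_spec hex
  have hk0 : 0 < k := by
    rcases Nat.eq_zero_or_pos k with h | h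
    · rw [h] at hk1; simp at hk1; omega
    · exact h
  obtain ⟨r, hr⟩ : ∃ r, k = r + 1 := ⟨k - 1, by omega⟩
  have hk2 : s * (2 * r) < n := by
    have := Nat.find_min hex (m := r) (by omega)
    omega
  obtain ⟨s', hs'⟩ : ∃ s', s * (2 * k) = n + s' := Nat.exists_eq_add_of_le hk1
  have hs2 : s' < 2 * s := by
    rw [hr] at hs'
    nlinarith
  refine ⟨2 * k, s', by omega, ⟨k, by ring⟩, hs2, ?_, ?_⟩
  · rcases Nat.eq_zero_or_pos i with hi | hi
    · subst hi
      have e0 : T 0 = 1 := rfl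
      have e1 : T (0 + 1) = 2 := rfl
      rw [e0] at hn
      rw [e1]
      rcases Nat.eq_zero_or_pos r with h | h
      · have : k = 1 := by omega
        rw [this] at hs' ⊢
        nlinarith
      · -- s' * 2 < 4 s ≤ 2 * s * (2 r) ... 
        have h1 : s * (2 * r) < n := hk2
        have h2 : 2 * s ≤ s * (2 * r) := by nlinarith
        have h3 : 2 ≤ k := by omega
        nlinarith
    · obtain ⟨i', rfl⟩ : ∃ i', i = i' + 1 := ⟨i - 1, by omega⟩
      obtain ⟨u, hu⟩ := T_even i'
      have e1 : T (i' + 1 + 1) = T (i' + 1) * (T (i' + 1) + 2) / 2 := rfl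
      have e2 : T (i' + 1 + 1) = u * (2 * u + 2) := by
        rw [e1, hu]
        apply Nat.div_eq_of_eq_mul_left (by norm_num)
        ring
      rw [e2]
      rw [hu] at hn
      -- u < k, so u ≤ r
      have hur : u ≤ r := by
        by_contra hcon
        have : k ≤ u := by omega
        have : s * (2 * k) ≤ s * (u + u) := Nat.mul_le_mul_left _ (by omega)
        omega
      -- s' * u (2u+2) ≤ s' * r (2r + 2) = s' r 2 k < n * 2k
      have h1 : s' * r < n := by
        have : s' * r ≤ 2 * s * r := Nat.mul_le_mul_right _ (le_of_lt hs2)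
        have e : 2 * s * r = s * (2 * r) := by ring
        omega
      calc s' * (u * (2 * u + 2)) ≤ s' * (r * (2 * r + 2)) := by
            apply Nat.mul_le_mul_left
            apply Nat.mul_le_mul hur
            omega
        _ = (s' * r) * (2 * k) := by rw [hr]; ring
        _ < n * (2 * k) := Nat.mul_lt_mul_of_pos_right h1 (by omega)
  · have hnq : (n : ℚ) ≠ 0 := by positivity
    have hkq : (k : ℚ) ≠ 0 := by positivity
    have hq : (s : ℚ) * (2 * k) = n + s' := by exact_mod_cast hs'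
    push_cast
    field_simp
    linarith

end Pool.Agent.SC
end

section

set_option autoImplicit false
namespace Pool.Agent.SC

/-- Proof. Induction on `i` downwards / on `k = i - i₀`: statement: for all `k i s n`, if `s * T i < n`,
`s ≤ 2^i * d`, and `2^(i+k+1) * d ≤ T (i+k)`, then `∃ l ≤ k + 2, Rep (s/n) l`.
`s = 0`: `Rep_zero` (`0 ≤ k + 2`). `k = 0`: `Rep_pair` with `p = 2 s`, `A = 2 n`: `p ≤ 2^(i+1) d ≤ T i`, so
`p * p ≤ 2 s T i < 2 n = A`, hence `(p-1)(p-2) ≤ A` and `p ≤ A`; `2s/2n = s/n`.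
`k + 1`: `greedy_step` gives `m, s'` with `s' < 2 s ≤ 2^(i+1) d`, `s' * T (i+1) < n m`; induction for
`(k, i+1, s', n m)` gives `Rep (s'/(n m)) l'`, `l' ≤ k + 2`; `Rep_unit` and `Rep_add`: `1 + l' ≤ (k+1) + 2`. -/
theorem rep_aux (d : ℕ) : ∀ (k i s n : ℕ), s * T i < n → s ≤ 2 ^ i * d → 2 ^ (i + k + 1) * d ≤ T (i + k) →
    ∃ l, l ≤ k + 2 ∧ Rep ((s : ℚ) / n) l := by
  intro k
  induction k with
  | zero =>
    intro i s n hn hs hT
    rcases Nat.eq_zero_or_pos s with h0 | h0
    · subst h0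
      exact ⟨0, by omega, by simpa using Rep_zero⟩
    · have hn0 : 0 < n := lt_of_le_of_lt (Nat.zero_le _) hn
      have hp : 2 * s ≤ T i := by
        have e : 2 ^ (i + 0 + 1) * d = 2 * (2 ^ i * d) := by ring
        rw [e] at hT
        have : T (i + 0) = T i := rfl
        omega
      have hpp : 2 * s * s < n := by
        have : s * (2 * s) ≤ s * T i := Nat.mul_le_mul_left _ hp
        nlinarith
      refine ⟨2, by omega, ?_⟩
      have h := Rep_pair (p := 2 * s) (A := 2 * n) (by omega) ⟨s, by ring⟩ ⟨n, by ring⟩ (by omega)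
        (by
          have h1 : (2 * s - 1) * (2 * s - 2) ≤ (2 * s) * (2 * s) :=
            Nat.mul_le_mul (Nat.sub_le _ _) (Nat.sub_le _ _)
          nlinarith) (by nlinarith)
      have e : (((2 * s : ℕ) : ℚ) / ((2 * n : ℕ) : ℚ)) = (s : ℚ) / n := by
        push_cast
        rw [mul_div_mul_left _ _ (by norm_num : (2 : ℚ) ≠ 0)]
      rwa [e] at h
  | succ k ih =>
    intro i s n hn hs hT
    rcases Nat.eq_zero_or_pos s with h0 | h0
    · subst h0
      exact ⟨0, by omega, by simpa using Rep_zero⟩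
    · obtain ⟨m, s', hm0, hme, hs2, hT2, hsum⟩ := greedy_step i s n h0 hn
      have e1 : i + 1 + k = i + (k + 1) := by ring
      obtain ⟨l, hl, hrep⟩ := ih (i + 1) s' (n * m) hT2
        (by
          have e : 2 ^ (i + 1) * d = 2 * (2 ^ i * d) := by ring
          rw [e]; omega)
        (by rw [e1]; exact hT)
      refine ⟨1 + l, by omega, ?_⟩
      rw [hsum]
      exact Rep_add (Rep_unit hm0 hme) hrep

/-- Proof. `rep_aux` with `i = 0`, `k = j + 4`, `d = n = ρ.den`, `s = ρ.num.toNat`, `T 0 = 1`, and `T_large`. -/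
theorem rep_exists (j : ℕ) (ρ : ℚ) (h0 : 0 ≤ ρ) (h1 : ρ < 1) (hd : ρ.den ≤ 2 ^ (2 ^ j)) :
    ∃ l, l ≤ j + 6 ∧ Rep ρ l := by
  have hnum : (0 : ℤ) ≤ ρ.num := Rat.num_nonneg.2 h0
  obtain ⟨s, hs⟩ := Int.eq_ofNat_of_zero_le hnum
  have hlt : s < ρ.den := by
    have h2 : ρ.num < ρ.den := by
      have := Rat.num_div_den ρ
      have hden : (0 : ℚ) < (ρ.den : ℚ) := by exact_mod_cast ρ.den_pos
      rw [← this] at h1
      rw [div_lt_one hden] at h1
      exact_mod_cast h1
    rw [hs] at h2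
    exact_mod_cast h2
  have hT0 : T 0 = 1 := rfl
  obtain ⟨l, hl, hrep⟩ := rep_aux ρ.den (j + 4) 0 s ρ.den (by rw [hT0]; omega)
    (by rw [pow_zero, one_mul]; exact le_of_lt hlt)
    (by
      have h3 := T_large j
      have e : 0 + (j + 4) + 1 = j + 5 := by ring
      have e2 : 0 + (j + 4) = j + 4 := by ring
      rw [e, e2]
      exact le_trans (Nat.mul_le_mul_left _ hd) h3)
  refine ⟨l, by omega, ?_⟩
  have e : (s : ℚ) / (ρ.den : ℚ) = ρ := by
    have h4 : ((ρ.num : ℤ) : ℚ) = (s : ℚ) := by rw [hs]; simp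
    rw [← h4]; exact Rat.num_div_den ρ
  rwa [e] at hrep

end Pool.Agent.SC
end

section

set_option autoImplicit false
namespace Pool.Agent.SC

theorem U2_split (l : List (ℤ ⊕ ℤ)) (y : ℤ) (h : y ∈ ys l) :
    ∃ u v, l = u ++ Sum.inr y :: v := by
  unfold ys at h
  rw [List.mem_filterMap] at h
  obtain ⟨a, ha, hy⟩ := h
  cases a with
  | inl x => simp at hy
  | inr z =>
    simp only [Sum.getRight?_inr, Option.some.injEq] at hy
    subst hy
    exact List.append_of_mem ha

theorem U2_ms {u v : List (ℤ ⊕ ℤ)} {y : ℤ} {M : Multiset ℤ}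
    (h : ((ys (u ++ Sum.inr y :: v) : List ℤ) : Multiset ℤ) = y ::ₘ M) :
    ((ys u : List ℤ) : Multiset ℤ) + ((ys v : List ℤ) : Multiset ℤ) = M := by
  rw [ys_append, ys_inr, ← Multiset.coe_add, ← Multiset.cons_coe, Multiset.add_cons,
    Multiset.cons_inj_right] at h
  exact h

theorem U2_mem {l : List (ℤ ⊕ ℤ)} {y : ℤ} {M : Multiset ℤ}
    (h : ((ys l : List ℤ) : Multiset ℤ) = y ::ₘ M) : y ∈ ys l := by
  rw [← Multiset.mem_coe, h]
  exact Multiset.mem_cons_self y M

theorem U2_core {G : Type*} [Group G] (a b c U V W : G) (m : ℕ)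
    (h : PC m (a * c * b * (V * U * W))) : PC (m + 1) (a * (U * (b * (V * (c * W))))) := by
  have h1 := PC_conj a (PC_xyz U (b * V) c)
  have h2 := PC_mul h1 h
  have e : a * (U * (b * V) * c * (c * (b * V) * U)⁻¹) * a⁻¹ * (a * c * b * (V * U * W)) =
      a * (U * (b * (V * (c * W)))) := by group
  rw [e, add_comm] at h2
  exact h2


/-- **merging three `c`-exponents costs one commutator.**
Proof. By `H_of_head` (with `y = y1`) it is enough to treat `C^y1 * ev l` with `ys l = y2 ::ₘ y3 ::ₘ M`. Write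
`l = u ++ inr y2 :: r` (`y2 ∈ ys l`); then `y3 ::ₘ M = ys u + ys r`, so `y3 ∈ ys r` or `y3 ∈ ys u`.
Case 1: `r = v ++ inr y3 :: w`. `C^y1 * U * C^y2 * V * C^y3 * W`. Apply `PC_xyz` to `x = U`, `y = C^y2 * V`, `z = C^y3`:
`U * (C^y2 * V) * C^y3 = K * (C^y3 * C^y2 * V * U)` with `PC 1 K`, so
`C^y1 * ev l = (C^y1 * K * C^(-y1)) * (C^y1 * C^y3 * C^y2 * V * U * W)`, and the second factor is
`C^(y1+y2+y3) * ev (v ++ u ++ w)`, to which `h` applies in the form `ev (inr (y1+y2+y3) :: (v ++ u ++ w))`. Then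
`PC_mul` and `PC_conj` (`1 + m = m + 1`).
Case 2: `u = v ++ inr y3 :: w`. `C^y1 * V * C^y3 * W * C^y2 * R`: the same with `y2`, `y3` exchanged. -/
theorem H_merge {M : Multiset ℤ} {X : ℤ} {m : ℕ} (y1 y2 y3 : ℤ)
    (h : H ((y1 + y2 + y3) ::ₘ M) X m) : H (y1 ::ₘ y2 ::ₘ y3 ::ₘ M) X (m + 1) := by
  refine H_of_head y1 fun l h1 h2 => ?_
  obtain ⟨u, r, rfl⟩ := U2_split l y2 (U2_mem h1)
  have h3 := U2_ms h1
  rw [xs_append, xs_inr, List.sum_append] at h2
  have h4 : y3 ∈ ys u ∨ y3 ∈ ys r := by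
    have h5 : y3 ∈ ((ys u : List ℤ) : Multiset ℤ) + ((ys r : List ℤ) : Multiset ℤ) := by
      rw [h3]
      exact Multiset.mem_cons_self _ _
    rw [Multiset.mem_add, Multiset.mem_coe, Multiset.mem_coe] at h5
    exact h5
  rcases h4 with h4 | h4
  · obtain ⟨v, w, rfl⟩ := U2_split u y3 h4
    rw [ys_append, ys_inr, ← Multiset.coe_add, ← Multiset.cons_coe, Multiset.add_cons,
      Multiset.cons_add, Multiset.cons_inj_right] at h3
    rw [xs_append, xs_inr, List.sum_append] at h2
    have h5 := h (Sum.inr (y1 + y2 + y3) :: (w ++ v ++ r))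
      (by rw [ys_inr, ys_append, ys_append, ← Multiset.cons_coe, ← Multiset.coe_add,
            ← Multiset.coe_add, ← h3, add_comm ((ys v : List ℤ) : Multiset ℤ)])
      (by rw [xs_inr, xs_append, xs_append, List.sum_append, List.sum_append, ← h2]; ring)
    rw [ev_append, ev_inr, ev_append, ev_inr]
    have e1 : ev v * (C ^ y3 * ev w) * (C ^ y2 * ev r) =
        ev v * (C ^ y3 * (ev w * (C ^ y2 * ev r))) := by group
    rw [e1]
    refine U2_core _ _ _ _ _ _ _ ?_
    rw [ev_inr, ev_append, ev_append] at h5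
    have e2 : C ^ (y1 + y2 + y3) = C ^ y1 * C ^ y2 * C ^ y3 := by rw [zpow_add, zpow_add]
    rw [e2] at h5
    exact h5
  · obtain ⟨v, w, rfl⟩ := U2_split r y3 h4
    rw [ys_append, ys_inr, ← Multiset.coe_add, ← Multiset.cons_coe, Multiset.add_cons,
      Multiset.add_cons, Multiset.cons_inj_right] at h3
    rw [xs_append, xs_inr, List.sum_append] at h2
    have h5 := h (Sum.inr (y1 + y2 + y3) :: (v ++ u ++ w))
      (by rw [ys_inr, ys_append, ys_append, ← Multiset.cons_coe, ← Multiset.coe_add,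
            ← Multiset.coe_add, ← h3, ← add_assoc, add_comm ((ys u : List ℤ) : Multiset ℤ)])
      (by rw [xs_inr, xs_append, xs_append, List.sum_append, List.sum_append, ← h2]; ring)
    rw [ev_append, ev_inr, ev_append, ev_inr]
    refine U2_core _ _ _ _ _ _ _ ?_
    rw [ev_inr, ev_append, ev_append] at h5
    have e2 : C ^ (y1 + y2 + y3) = C ^ y1 * C ^ y3 * C ^ y2 := by
      rw [← zpow_add, ← zpow_add]
      congr 1
      ring
    rw [e2] at h5
    exact h5

end Pool.Agent.SC
end

section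

set_option autoImplicit false
namespace Pool.Agent.SC

/-- Proof. Induction on `r`, generalizing `R` (and `m`): `r = 0`: `R = {y}` (`Multiset.card_eq_one`), trivial.
`r + 1`: `R = y1 ::ₘ y2 ::ₘ y3 ::ₘ R'` with `card R' = 2 * r`; the induction hypothesis for
`(y1+y2+y3) ::ₘ R'` (card `2r+1`, same sum) gives `H ((y1+y2+y3) ::ₘ (R' + M)) X (m + r)`, then `H_merge`. -/
theorem H_odd (r : ℕ) (R M : Multiset ℤ) (X : ℤ) (m : ℕ) (hR : Multiset.card R = 2 * r + 1)
    (h : H (R.sum ::ₘ M) X m) : H (R + M) X (m + r) := by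
  induction r generalizing R m with
  | zero =>
    rw [Nat.mul_zero, Nat.zero_add, Multiset.card_eq_one] at hR
    obtain ⟨y, rfl⟩ := hR
    rw [Multiset.sum_singleton] at h
    rw [Multiset.singleton_add, add_zero]
    exact h
  | succ r ih =>
    obtain ⟨y1, R1, rfl⟩ := Multiset.card_pos_iff_exists_mem.1 (by omega : 0 < Multiset.card R) |>.elim
      fun y hy => (⟨y, R.erase y, (Multiset.cons_erase hy).symm⟩ : ∃ y1 R1, R = y1 ::ₘ R1)
    rw [Multiset.card_cons] at hR
    obtain ⟨y2, R2, rfl⟩ := Multiset.card_pos_iff_exists_mem.1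
      (by omega : 0 < Multiset.card R1) |>.elim
      fun y hy => (⟨y, R1.erase y, (Multiset.cons_erase hy).symm⟩ : ∃ y1 R2, R1 = y1 ::ₘ R2)
    rw [Multiset.card_cons] at hR
    obtain ⟨y3, R3, rfl⟩ := Multiset.card_pos_iff_exists_mem.1
      (by omega : 0 < Multiset.card R2) |>.elim
      fun y hy => (⟨y, R2.erase y, (Multiset.cons_erase hy).symm⟩ : ∃ y1 R3, R2 = y1 ::ₘ R3)
    rw [Multiset.card_cons] at hR
    have h1 := ih ((y1 + y2 + y3) ::ₘ R3) m (by rw [Multiset.card_cons]; omega) (by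
      rw [Multiset.sum_cons]
      rw [Multiset.sum_cons, Multiset.sum_cons, Multiset.sum_cons] at h
      have e : y1 + y2 + y3 + R3.sum = y1 + (y2 + (y3 + R3.sum)) := by ring
      rw [e]
      exact h)
    rw [Multiset.cons_add] at h1
    have h2 := H_merge y1 y2 y3 h1
    rw [Multiset.cons_add, Multiset.cons_add, Multiset.cons_add]
    exact h2

/-- groups of odd size and sum zero. Proof. Induction on the multiset `G` with `H_odd` and `H_cons_zero`:
each group `R` with `card R = 2 r + 1` costs `r`. -/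
theorem H_groups (G : Multiset (Multiset ℤ)) (M : Multiset ℤ) (X : ℤ) (m : ℕ)
    (hG : ∀ R ∈ G, R.sum = 0 ∧ Odd (Multiset.card R)) (h : H M X m) :
    H (G.sum + M) X (m + (G.map (fun R => Multiset.card R / 2)).sum) := by
  induction G using Multiset.induction_on with
  | empty => simpa using h
  | cons R G ih =>
    have h1 := ih fun S hS => hG S (Multiset.mem_cons_of_mem hS)
    obtain ⟨h2, h3⟩ := hG R (Multiset.mem_cons_self R G)
    have h4 := H_odd (Multiset.card R / 2) R (G.sum + M) X _ (by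
      have := Nat.odd_iff.1 h3
      omega) (by
      rw [h2]
      exact H_cons_zero h1)
    rw [Multiset.sum_cons, Multiset.map_cons, Multiset.sum_cons, add_assoc,
      add_comm (Multiset.card R / 2), ← add_assoc m]
    exact h4

/-- Proof. If `card M = 2 r + 1`: `H_odd` with `M := 0` and `H_single`: `m = 1 + r`.
If `card M = 2 r`, `r ≥ 1`: apply the odd case to `0 ::ₘ M` and `H_drop_zero`: `1 + r`.
If `M = 0`: `H_zero` (and `PC_mono`). Then `PC_mono` inside `H` if necessary. -/
theorem H_final (M : Multiset ℤ) : H M (-M.sum) (Multiset.card M / 2 + 1) := by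
  have hodd : ∀ (r : ℕ) (N : Multiset ℤ), Multiset.card N = 2 * r + 1 → H N (-N.sum) (r + 1) := by
    intro r N hN
    have h1 := H_odd r N 0 (-N.sum) 1 hN (H_single N.sum)
    rw [add_zero, add_comm 1 r] at h1
    exact h1
  rcases Nat.even_or_odd' (Multiset.card M) with ⟨r, hr | hr⟩
  · have h1 := hodd r (0 ::ₘ M) (by rw [Multiset.card_cons, hr])
    rw [Multiset.sum_cons, zero_add] at h1
    have h2 := H_drop_zero h1
    have e : Multiset.card M / 2 = r := by omega
    rw [e]
    exact h2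
  · have e : Multiset.card M / 2 = r := by omega
    rw [e]
    exact hodd r M hr

end Pool.Agent.SC
end

section

set_option autoImplicit false
namespace Pool.Agent.SC

/-- the list `D^n` -/
def rep (n : ℕ) (D : List (ℤ × ℤ)) : List (ℤ × ℤ) := (List.replicate n D).flatten

private theorem F1_rep_zero (D : List (ℤ × ℤ)) : rep 0 D = [] := rfl

private theorem F1_rep_succ (n : ℕ) (D : List (ℤ × ℤ)) : rep (n + 1) D = D ++ rep n D := by
  unfold rep
  rw [List.replicate_succ, List.flatten_cons]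

private theorem F1_facs_append (D D' : List (ℤ × ℤ)) : facs (D ++ D') = facs D ++ facs D' := by
  unfold facs
  rw [List.flatMap_append]

private theorem F1_mem_rep {n : ℕ} {D : List (ℤ × ℤ)} {d : ℤ × ℤ} (h : d ∈ rep n D) : d ∈ D := by
  unfold rep at h
  rw [List.mem_flatten] at h
  obtain ⟨l, hl, hd⟩ := h
  rw [List.mem_replicate] at hl
  rw [← hl.2]
  exact hd

private theorem F1_length_rep (n : ℕ) (D : List (ℤ × ℤ)) : (rep n D).length = n * D.length := by
  induction n with
  | zero => simp [F1_rep_zero]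
  | succ n ih =>
    rw [F1_rep_succ, List.length_append, ih]
    ring

private theorem F1_sum_rep (f : ℤ × ℤ → ℤ) (n : ℕ) (D : List (ℤ × ℤ)) :
    ((rep n D).map f).sum = n * (D.map f).sum := by
  induction n with
  | zero => simp [F1_rep_zero]
  | succ n ih =>
    rw [F1_rep_succ, List.map_append, List.sum_append, ih]
    push_cast
    ring

private theorem F1_map_rep (n : ℕ) (D : List (ℤ × ℤ)) :
    (((rep n D).map Prod.snd : List ℤ) : Multiset ℤ) = n • ((D.map Prod.snd : List ℤ) : Multiset ℤ) := by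
  induction n with
  | zero => simp [F1_rep_zero]
  | succ n ih =>
    rw [F1_rep_succ, List.map_append, ← Multiset.coe_add, ih, succ_nsmul']

/-- Proof: `ev (facs (D ++ D')) = ev (facs D) * ev (facs D')`. -/
theorem ev_rep (n : ℕ) (D : List (ℤ × ℤ)) : ev (facs (rep n D)) = ev (facs D) ^ n := by
  induction n with
  | zero => simp [F1_rep_zero, facs]
  | succ n ih => rw [F1_rep_succ, F1_facs_append, ev_append, ih, pow_succ']

theorem ys_facs (D : List (ℤ × ℤ)) : ys (facs D) = D.map Prod.snd := by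
  induction D with
  | nil => rfl
  | cons d D ih =>
    have e : facs (d :: D) = Sum.inl d.1 :: Sum.inr d.2 :: facs D := by simp [facs]
    rw [e, ys_inl, ys_inr, ih, List.map_cons]

theorem xs_facs (D : List (ℤ × ℤ)) : xs (facs D) = D.map Prod.fst := by
  induction D with
  | nil => rfl
  | cons d D ih =>
    have e : facs (d :: D) = Sum.inl d.1 :: Sum.inr d.2 :: facs D := by simp [facs]
    rw [e, xs_inl, xs_inr, ih, List.map_cons]

/-- lower bound for powers. Proof: `lower` applied to `rep n D` (all sums are multiplied by `n`). -/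
theorem lower_pow (D : List (ℤ × ℤ)) (Q : ℤ) (hQ : 0 < Q) (hx : ∀ d ∈ D, d.1 < 0) (hy : ∀ d ∈ D, d.2 ≠ 0)
    (hyQ : ∀ d ∈ D, 0 < d.2 → d.2 = Q) (n : ℕ) {g : ℕ} (h : PC g (ev (facs D) ^ n)) :
    Q * (n * D.length : ℤ) ≤ n * (D.map (fun d => max (-d.2) 0)).sum + 2 * Q * g := by
  rw [← ev_rep] at h
  have h1 := lower (rep n D) Q hQ (fun d hd => hx d (F1_mem_rep hd)) (fun d hd => hy d (F1_mem_rep hd))
    (fun d hd => hyQ d (F1_mem_rep hd)) h
  rw [F1_length_rep, F1_sum_rep] at h1
  push_cast at h1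
  exact h1

private theorem F1_sum_R (Q : ℤ) (G : Multiset (Multiset ℕ)) :
    (G.map (fun g => Q ::ₘ g.map (fun x : ℕ => -(x : ℤ)))).sum =
      Multiset.replicate (Multiset.card G) Q + G.sum.map (fun x : ℕ => -(x : ℤ)) := by
  induction G using Multiset.induction_on with
  | empty => simp
  | cons g G ih =>
    rw [Multiset.map_cons, Multiset.sum_cons, ih, Multiset.card_cons, Multiset.sum_cons,
      Multiset.map_add, Multiset.replicate_succ]
    rw [← Multiset.singleton_add, ← Multiset.singleton_add]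
    abel

private theorem F1_sum_half (Q : ℤ) (G : Multiset (Multiset ℕ)) (h : ∀ g ∈ G, Even (Multiset.card g)) :
    2 * ((G.map (fun g => Q ::ₘ g.map (fun x : ℕ => -(x : ℤ)))).map
      (fun R => Multiset.card R / 2)).sum = Multiset.card G.sum := by
  induction G using Multiset.induction_on with
  | empty => simp
  | cons g G ih =>
    have h1 := ih (fun g' hg' => h g' (Multiset.mem_cons_of_mem hg'))
    have h2 := h g (Multiset.mem_cons_self g G)
    rw [Multiset.map_cons, Multiset.map_cons, Multiset.sum_cons, Multiset.sum_cons, Multiset.card_add,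
      mul_add, h1, Multiset.card_cons, Multiset.card_map]
    obtain ⟨k, hk⟩ := h2
    omega

private theorem F1_sum_sum (G : Multiset (Multiset ℕ)) (Q : ℕ) (h : ∀ g ∈ G, g.sum = Q) :
    G.sum.sum = Multiset.card G * Q := by
  induction G using Multiset.induction_on with
  | empty => simp
  | cons g G ih =>
    have h1 := ih (fun g' hg' => h g' (Multiset.mem_cons_of_mem hg'))
    rw [Multiset.sum_cons, Multiset.sum_add, h1, h g (Multiset.mem_cons_self g G), Multiset.card_cons]
    ring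

private theorem F1_neg_sum (g : Multiset ℕ) : (g.map (fun x : ℕ => -(x : ℤ))).sum = -(g.sum : ℤ) := by
  induction g using Multiset.induction_on with
  | empty => simp
  | cons a g ih =>
    rw [Multiset.map_cons, Multiset.sum_cons, ih, Multiset.sum_cons]
    push_cast
    ring

/-- upper bound for powers. `Q`, `c`, `N`, `G` as in `Rep`; `D` has `k - l` entries with `y = Q` and `l` entries with
`y ∈ -c`, `k - l ≥ 1`, and `∑ x = - ∑ y`.
Proof. `w^(N r)` has the `c`-exponents `N r • (replicate (k-l) Q + c.map (-·))`. For `g ∈ G` put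
`R g = Q ::ₘ g.map (-·)`: sum `0`, size `1 + card g` odd. `(r • G).map R` uses `r card G` copies of `Q` and
`r • N • c.map (-·)`. From the sums: `card G * Q = N * c.sum` and `c.sum = P < Q`, so `card G ≤ N ≤ N (k-l)`. The
remaining multiset is `replicate (N r (k-l) - r card G) Q`. `H_groups` and `H_final`:
`m = ∑ card (R g) / 2 + (N r (k-l) - r card G)/2 + 1` (division rounds down), with `∑_{g} card (R g)/2 = ∑ card g / 2`
(`card g` even) `= N r l / 2`. So `2 m ≤ N r l + N r (k - l) - r card G + 2`, and multiplied by `Q`: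
`2 m Q ≤ N r k Q - r N P + 2 Q`. -/
theorem upper_pow (D : List (ℤ × ℤ)) (Q : ℕ) (c : Multiset ℕ) (N : ℕ) (G : Multiset (Multiset ℕ)) (e : ℕ)
    (hQ : 0 < Q) (hN : 0 < N) (he : 1 ≤ e) (hc : c.sum < Q)
    (hG : G.sum = N • c) (hG' : ∀ g ∈ G, g.sum = Q ∧ Even (Multiset.card g))
    (hD : ((D.map Prod.snd : List ℤ) : Multiset ℤ) =
      Multiset.replicate e (Q : ℤ) + c.map (fun x => -(x : ℤ)))
    (hx : (D.map Prod.fst).sum = -(D.map Prod.snd).sum) (r : ℕ) :
    ∃ m : ℕ, PC m (ev (facs D) ^ (N * r)) ∧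
      2 * m * Q + r * N * c.sum ≤ N * r * (D.length) * Q + 2 * Q := by
  set f : ℕ → ℤ := fun x => -(x : ℤ) with hf
  set Rf : Multiset ℕ → Multiset ℤ := fun g => (Q : ℤ) ::ₘ g.map f with hRf
  have hGQ : Multiset.card G * Q = N * c.sum := by
    rw [← F1_sum_sum G Q (fun g hg => (hG' g hg).1), hG, Multiset.sum_nsmul, smul_eq_mul]
  have hGN : Multiset.card G ≤ N := by
    have h1 : Multiset.card G * Q ≤ N * Q := by
      rw [hGQ]
      exact Nat.mul_le_mul_left N hc.le
    exact Nat.le_of_mul_le_mul_right h1 hQ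
  have hle : r * Multiset.card G ≤ N * r * e := by
    calc r * Multiset.card G ≤ r * N := Nat.mul_le_mul_left r hGN
      _ = N * r * 1 := by ring
      _ ≤ N * r * e := Nat.mul_le_mul_left _ he
  obtain ⟨K, hK⟩ := Nat.exists_eq_add_of_le hle
  set M : Multiset ℤ := Multiset.replicate K (Q : ℤ) with hM
  set GG : Multiset (Multiset ℕ) := r • G with hGG
  have hGGmem : ∀ g ∈ GG, g ∈ G := fun g hg => Multiset.mem_of_mem_nsmul hg
  have hfin := H_final M
  have hgr := H_groups (GG.map Rf) M (-M.sum) _ (by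
    intro R hR
    obtain ⟨g, hg, rfl⟩ := Multiset.mem_map.mp hR
    obtain ⟨h1, h2⟩ := hG' g (hGGmem g hg)
    constructor
    · rw [hRf]
      simp only
      rw [Multiset.sum_cons, hf, F1_neg_sum, h1]
      ring
    · rw [hRf]
      simp only
      rw [Multiset.card_cons, Multiset.card_map]
      exact h2.add_one) hfin
  have hGGsum : GG.sum = (r * N) • c := by
    rw [hGG, Multiset.sum_nsmul, hG, mul_nsmul']
  have hGGcard : Multiset.card GG = r * Multiset.card G := by
    rw [hGG, Multiset.card_nsmul]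
  have hmulti : (GG.map Rf).sum + M = (N * r) • (Multiset.replicate e (Q : ℤ) + c.map f) := by
    rw [hRf, hf, F1_sum_R, hGGsum, hGGcard, hM, nsmul_add, Multiset.nsmul_replicate, hK,
      Multiset.replicate_add, Multiset.map_nsmul, mul_comm r N]
    abel
  have hsum0 : ((GG.map Rf).sum + M).sum = M.sum := by
    rw [Multiset.sum_add]
    have h1 : ((GG.map Rf).sum).sum = 0 := by
      rw [hRf, hf, F1_sum_R, Multiset.sum_add, Multiset.sum_replicate, F1_neg_sum,
        F1_sum_sum GG Q (fun g hg => (hG' g (hGGmem g hg)).1)]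
      push_cast
      rw [nsmul_eq_mul]
      ring
    rw [h1, zero_add]
  have hD' : ((D.map Prod.snd : List ℤ) : Multiset ℤ) =
      Multiset.replicate e (Q : ℤ) + c.map f := by
    rw [hD]
    congr 1
    change Multiset.map (fun x : ℤ => -x) (c.bind fun a : ℕ => {(a : ℤ)}) = _
    rw [Multiset.bind_singleton, Multiset.map_map]
    rfl
  refine ⟨Multiset.card M / 2 + 1 + ((GG.map Rf).map (fun R => Multiset.card R / 2)).sum, ?_, ?_⟩
  · rw [← ev_rep]
    apply hgr
    · rw [ys_facs, F1_map_rep, hD', hmulti]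
    · rw [xs_facs, F1_sum_rep]
      have h1 : (((D.map Prod.snd : List ℤ) : Multiset ℤ)).sum = (D.map Prod.snd).sum :=
        Multiset.sum_coe _
      rw [hx, ← h1, hD', ← hsum0, hmulti, Multiset.sum_nsmul, nsmul_eq_mul]
      push_cast
      ring
  · have h1 := F1_sum_half (Q : ℤ) GG (fun g hg => (hG' g (hGGmem g hg)).2)
    rw [hGGsum, Multiset.card_nsmul] at h1
    have h2 : Multiset.card M = K := by rw [hM, Multiset.card_replicate]
    have h3 : D.length = e + Multiset.card c := by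
      have h4 := congrArg Multiset.card hD'
      rw [Multiset.coe_card, List.length_map, Multiset.card_add, Multiset.card_replicate,
        Multiset.card_map] at h4
      exact h4
    set Sg := ((GG.map Rf).map (fun R => Multiset.card R / 2)).sum with hSg
    have h5 : 2 * Sg = r * N * Multiset.card c := h1
    have h6 : 2 * (Multiset.card M / 2 + 1 + Sg) + r * Multiset.card G
        ≤ N * r * D.length + 2 := by
      rw [h2, h3, mul_add (N * r), hK]
      have h7 : 2 * (K / 2) ≤ K := Nat.mul_div_le K 2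
      have h8 : r * N * Multiset.card c = N * r * Multiset.card c := by ring
      omega
    calc 2 * (Multiset.card M / 2 + 1 + Sg) * Q + r * N * c.sum
        = (2 * (Multiset.card M / 2 + 1 + Sg) + r * Multiset.card G) * Q := by
          have h9 : r * N * c.sum = r * (Multiset.card G * Q) := by rw [hGQ]; ring
          rw [h9]
          ring
      _ ≤ (N * r * D.length + 2) * Q := Nat.mul_le_mul_right Q h6
      _ = N * r * D.length * Q + 2 * Q := by ring

end Pool.Agent.SC
end
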